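import Pool.Agent.H974R2.FinalFin

/-!
Invasion percolation on the square lattice: deterministic facts.
-/

set_option autoImplicit false

namespace Run7.h537

open H974 Finset

/-- The edges with both end points in `A`. -/
def inn (A : Set Vtx) : Set Edg := {e | src e ∈ A ∧ tgt e ∈ A}

/-- The edges which join `A` to its complement. -/
def Bd (A : Set Vtx) (e : Edg) : Prop := (src e ∈ A ∧ tgt e ∉ A) ∨ (tgt e ∈ A ∧ src e ∉ A)

/-- The edges of weight at most `p`. -/
def lev (U : Edg → ℝ) (p : ℝ) : Set Edg := {e | U e ≤ p}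

/-- `A` is closed under the edges of `F`. -/
def Cl (F : Set Edg) (A : Set Vtx) : Prop := ∀ e ∈ F, (src e ∈ A ↔ tgt e ∈ A)

/-- An invasion from the origin. -/
structure IsInv (U : Edg → ℝ) (A : ℕ → Finset Vtx) : Prop where
  start : A 0 = {(0, 0)}
  step : ∀ n, ∃ e x y, Bd (↑(A n)) e ∧ (∀ e', Bd (↑(A n)) e' → U e ≤ U e') ∧
    ((src e = x ∧ tgt e = y) ∨ (src e = y ∧ tgt e = x)) ∧ x ∈ A n ∧ y ∉ A n ∧
    A (n + 1) = insert y (A n)

theorem inn_mono {A B : Set Vtx} (h : A ⊆ B) : inn A ⊆ inn B := fun _ he => ⟨h he.1, h he.2⟩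

theorem Cl.mono {F G : Set Edg} {A : Set Vtx} (h : F ⊆ G) (hG : Cl G A) : Cl F A :=
  fun e he => hG e (h he)

theorem Cl_inn (A : Set Vtx) : Cl (inn A) A := fun _ he => ⟨fun _ => he.2, fun _ => he.1⟩

theorem Cl.union {F G : Set Edg} {A : Set Vtx} (hF : Cl F A) (hG : Cl G A) : Cl (F ∪ G) A := by
  rintro e (he | he)
  · exact hF e he
  · exact hG e he

theorem Cl.reach {F : Set Edg} {A : Set Vtx} (h : Cl F A) {u v : Vtx} (hu : u ∈ A)
    (hr : Reach F u v) : v ∈ A := by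
  induction hr with
  | refl => exact hu
  | tail _ hs ih =>
    obtain ⟨e, he, ⟨h1, h2⟩ | ⟨h1, h2⟩⟩ := hs
    · rw [← h2]; exact (h e he).1 (by rw [h1]; exact ih)
    · rw [← h1]; exact (h e he).2 (by rw [h2]; exact ih)

namespace IsInv

variable {U : Edg → ℝ} {A : ℕ → Finset Vtx}

theorem mono_succ (h : IsInv U A) (n : ℕ) : A n ⊆ A (n + 1) := by
  obtain ⟨e, x, y, -, -, -, -, -, h5⟩ := h.step n
  rw [h5]; exact Finset.subset_insert _ _

theorem mono (h : IsInv U A) {n m : ℕ} (hnm : n ≤ m) : A n ⊆ A m := by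
  induction m, hnm using Nat.le_induction with
  | base => exact Finset.Subset.refl _
  | succ m _ ih => exact ih.trans (h.mono_succ m)

theorem card (h : IsInv U A) (n : ℕ) : (A n).card = n + 1 := by
  induction n with
  | zero => rw [h.start]; simp
  | succ n ih =>
    obtain ⟨e, x, y, -, -, -, -, h4, h5⟩ := h.step n
    rw [h5, Finset.card_insert_of_notMem h4, ih]

theorem zero_mem (h : IsInv U A) (n : ℕ) : ((0, 0) : Vtx) ∈ A n :=
  h.mono (Nat.zero_le n) (by rw [h.start]; simp)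

/-- The invaded set is connected. -/
theorem conn (h : IsInv U A) (n : ℕ) : ∀ w ∈ A n, Reach (inn ↑(A n)) (0, 0) w := by
  induction n with
  | zero =>
    intro w hw
    rw [h.start, Finset.mem_singleton] at hw
    rw [hw]; exact Reach.refl _ _
  | succ n ih =>
    obtain ⟨e, x, y, -, -, h3, h4, h5, h6⟩ := h.step n
    have hsub : (↑(A n) : Set Vtx) ⊆ ↑(A (n + 1)) := by exact_mod_cast h.mono_succ n
    intro w hw
    rw [h6, Finset.mem_insert] at hw
    rcases hw with rfl | hw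
    · refine ((ih x h4).mono (inn_mono hsub)).trans (Adj.reach ⟨e, ?_, h3⟩)
      have hx : x ∈ (↑(A (n + 1)) : Set Vtx) := hsub (by exact_mod_cast h4)
      have hy : w ∈ (↑(A (n + 1)) : Set Vtx) := by
        rw [h6]; simp
      rcases h3 with ⟨k1, k2⟩ | ⟨k1, k2⟩
      · exact ⟨by rw [k1]; exact hx, by rw [k2]; exact hy⟩
      · exact ⟨by rw [k1]; exact hy, by rw [k2]; exact hx⟩
    · exact (ih w hw).mono (inn_mono hsub)

/-- If the edge chosen at step `n` has weight above `p`, then `A n` is closed at level `p`. -/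
theorem closed_of (h : IsInv U A) {n : ℕ} {p : ℝ} (hp : ∀ e', Bd (↑(A n)) e' → p < U e') :
    Cl (lev U p) ↑(A n) := by
  intro e he
  by_contra hcon
  have hb : Bd (↑(A n)) e := by
    unfold Bd
    by_cases h1 : src e ∈ (↑(A n) : Set Vtx) <;> by_cases h2 : tgt e ∈ (↑(A n) : Set Vtx)
    · exact absurd ⟨fun _ => h2, fun _ => h1⟩ hcon
    · exact Or.inl ⟨h1, h2⟩
    · exact Or.inr ⟨h2, h1⟩
    · exact absurd ⟨fun k => absurd k h1, fun k => absurd k h2⟩ hcon
  exact absurd he (not_le.mpr (hp e hb))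

/-- First visit of a cluster of level `p`. -/
theorem first_visit (h : IsInv U A) {v : Vtx} {n : ℕ} (hv : v ∈ A n) {p : ℝ}
    (h0 : ¬ Reach (lev U p) v (0, 0)) :
    ∃ m, Cl (lev U p) ↑(A m) ∧ ∃ x ∈ A m, ∃ y, Reach (lev U p) v y ∧
      ∃ e, (src e = x ∧ tgt e = y) ∨ (src e = y ∧ tgt e = x) := by
  classical
  have hex : ∃ k, ∃ w ∈ A k, Reach (lev U p) v w := ⟨n, v, hv, Reach.refl _ _⟩
  obtain ⟨w, hw, hr⟩ := Nat.find_spec hex
  have hmin : ∀ k < Nat.find hex, ¬ ∃ w ∈ A k, Reach (lev U p) v w := fun k hk =>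
    Nat.find_min hex hk
  set k := Nat.find hex with hk
  rcases Nat.eq_zero_or_pos k with hk0 | hk0
  · rw [hk0, h.start, Finset.mem_singleton] at hw
    rw [hw] at hr
    exact absurd hr h0
  · obtain ⟨m, hm⟩ : ∃ m, k = m + 1 := ⟨k - 1, by omega⟩
    have hno := hmin m (by omega)
    obtain ⟨e, x, y, h1, h2, h3, h4, h5, h6⟩ := h.step m
    rw [hm, h6, Finset.mem_insert] at hw
    have hwy : w = y := by
      rcases hw with hw | hw
      · exact hw
      · exact absurd ⟨w, hw, hr⟩ hno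
    subst hwy
    refine ⟨m, h.closed_of ?_, x, h4, w, hr, e, h3⟩
    intro e' he'
    refine lt_of_lt_of_le ?_ (h2 e' he')
    by_contra hcon
    push Not at hcon
    apply hno
    refine ⟨x, h4, hr.trans (Adj.reach ⟨e, hcon, ?_⟩)⟩
    exact h3.symm

end IsInv

/-- The edges of `F` in the finite set `S`. -/
noncomputable def fin (S : Finset Edg) (F : Set Edg) : Finset Edg := by
  classical exact S.filter (fun e => e ∈ F)

theorem mem_fin {S : Finset Edg} {F : Set Edg} {e : Edg} : e ∈ fin S F ↔ e ∈ S ∧ e ∈ F := by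
  classical
  unfold fin
  rw [Finset.mem_filter]

theorem fin_coe (S : Finset Edg) (F : Set Edg) : (↑(fin S F) : Set Edg) = F ∩ ↑S := by
  ext e
  rw [Finset.mem_coe, mem_fin]
  exact and_comm

theorem fin_mono {S : Finset Edg} {F G : Set Edg} (h : F ⊆ G) : fin S F ⊆ fin S G := by
  intro e he
  rw [mem_fin] at he ⊢
  exact ⟨he.1, h he.2⟩

theorem fin_subset (S : Finset Edg) (F : Set Edg) : fin S F ⊆ S := by
  intro e he
  rw [mem_fin] at he
  exact he.1

/-- The box in which the first `J` steps of the chain live. -/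
noncomputable def BJ (N J : ℕ) : Finset Edg := boxE (2 * (2^J * N))

/-- The circuit and the first `J` steps of the chain of crossings. -/
def Gd (N J : ℕ) (F : Finset Edg) : Prop := Circ N (2 * N : ℕ) F ∧ ∀ j ≤ J, Step N j F

theorem Gd.mono {N J : ℕ} {F G : Finset Edg} (h : F ⊆ G) (hF : Gd N J F) : Gd N J G :=
  ⟨hF.1.mono h, fun j hj => (hF.2 j hj).mono h⟩

/-- A finite connected set which contains the origin and a point at distance at least `2 N`, and
which is closed under the edges of `F`, is not compatible with the chain. -/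
theorem no_finite {A : Finset Vtx} {F : Set Edg} {N : ℕ} (hN : 2 ≤ N)
    (h0 : ((0, 0) : Vtx) ∈ A) (hconn : ∀ w ∈ A, Reach (inn ↑A) (0, 0) w) (hcl : Cl F ↑A)
    {x : Vtx} (hx : x ∈ A)
    (hx2 : x.1 ≤ -(2 * N : ℕ) ∨ (2 * N : ℕ) ≤ x.1 ∨ x.2 ≤ -(2 * N : ℕ) ∨ (2 * N : ℕ) ≤ x.2)
    {J : ℕ} (hJ : ∀ a ∈ A, a.1 < 2 * (2^J * N : ℕ) ∧ a.2 < 2 * (2^J * N : ℕ))
    (hG : Gd N J (fin (BJ N J) F)) : False := by
  have hN' : (2:ℤ) ≤ N := by exact_mod_cast hN
  set S := BJ N J with hS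
  set Fs : Finset Edg := fin S (F ∪ inn ↑A) with hFs
  have hG' : Gd N J Fs := hG.mono (fin_mono Set.subset_union_left)
  have hclF : Cl (↑Fs : Set Edg) ↑A := by
    rw [hFs, fin_coe]
    exact (hcl.union (Cl_inn _)).mono Set.inter_subset_left
  obtain ⟨z, hz⟩ := circ_meet (R1 := (N:ℤ)) (R2 := ((2 * N : ℕ) : ℤ)) (by omega)
    (by push_cast; omega) hG'.1
  obtain ⟨a, v, hv, hza, hst⟩ := chain_conn hN (F := Fs) (z := z) hz J hG'.2
  have hav : Reach (↑Fs : Set Edg) a v := by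
    split_ifs at hst
    · exact hst.2.2.mono Set.inter_subset_left
    · exact hst.2.2.mono Set.inter_subset_left
  obtain ⟨w, k1, k2, k3⟩ := first_exit (a := -((2 * N : ℕ) : ℤ)) (b := ((2 * N : ℕ) : ℤ))
    (c := -((2 * N : ℕ) : ℤ)) (d := ((2 * N : ℕ) : ℤ)) (u := (0, 0))
    (by unfold inR; simp only; push_cast; omega) (hconn x hx) hx2
  have k4 : Reach ((↑Fs : Set Edg) ∩ ↑(RE (-((2 * N : ℕ) : ℤ)) ((2 * N : ℕ) : ℤ)
      (-((2 * N : ℕ) : ℤ)) ((2 * N : ℕ) : ℤ))) (0, 0) w := by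
    apply k3.mono
    rintro e ⟨he1, he2⟩
    refine ⟨?_, he2⟩
    rw [Finset.mem_coe, hFs, mem_fin]
    refine ⟨?_, Or.inr he1⟩
    have hle : N ≤ 2^J * N := Nat.le_mul_of_pos_left _ (by positivity)
    have : boxE (2 * N) ⊆ boxE (2 * (2^J * N)) := boxE_mono (by omega)
    exact this he2
  have k5 := hz (0, 0) w (by unfold inR; simp only; omega) k2 k4
  have k6 : Reach (↑Fs : Set Edg) (0, 0) v :=
    ((k5.mono Set.inter_subset_left).trans (hza.mono Set.inter_subset_left)).trans hav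
  have k7 : v ∈ (↑A : Set Vtx) := hclF.reach (by exact_mod_cast h0) k6
  have k8 := hJ v (by exact_mod_cast k7)
  rcases hv.2 with k9 | k9 <;> omega

end Run7.h537
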