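import Pool.Agent.Run7.h537.InvA
import Pool.Agent.H974R2.Infinite

/-!
Invasion percolation on the square lattice: the law of the edges of weight below a threshold.
-/

set_option autoImplicit false

namespace Run7.h537

open H974 Finset MeasureTheory

/-- Independent uniform weights. -/
noncomputable def wlaw : Measure (sqLattice.edgeSet → unitInterval) :=
  Measure.infinitePi (fun _ => (volume : Measure unitInterval))

instance : IsProbabilityMeasure wlaw := by
  unfold wlaw; infer_instance

/-- The weights, on `Edg`. -/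
def wt (U : sqLattice.edgeSet → unitInterval) (e : Edg) : ℝ := (U (toE e) : ℝ)

/-- The edges of `S` of weight below the threshold `P`. -/
noncomputable def FU (S : Finset Edg) (P : Edg → ℝ) (U : sqLattice.edgeSet → unitInterval) :
    Finset Edg := fin S {e | wt U e ≤ P e}

theorem mem_FU {S : Finset Edg} {P : Edg → ℝ} {U : sqLattice.edgeSet → unitInterval} {e : Edg} :
    e ∈ FU S P U ↔ e ∈ S ∧ wt U e ≤ P e := by
  unfold FU
  rw [mem_fin]
  rfl

/-- A left inverse of `toE`. -/
noncomputable def unE : sqLattice.edgeSet → Edg := Function.invFun toE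

theorem unE_toE (e : Edg) : unE (toE e) = e := Function.leftInverse_invFun toE_inj e

theorem FU_eq_pi {S T : Finset Edg} (P : Edg → ℝ) (hT : T ⊆ S) :
    {U | FU S P U = T} = Set.pi (↑(S.image toE) : Set sqLattice.edgeSet)
      (fun g => {x : unitInterval | (x:ℝ) ≤ P (unE g) ↔ g ∈ T.image toE}) := by
  ext U
  rw [Set.mem_pi]
  constructor
  · intro h g hg
    have h' : FU S P U = T := h
    obtain ⟨e, he, rfl⟩ := Finset.mem_image.mp (Finset.mem_coe.mp hg)
    show (U (toE e) : ℝ) ≤ P (unE (toE e)) ↔ toE e ∈ T.image toE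
    rw [toE_inj.mem_finset_image, ← h', mem_FU, unE_toE]
    exact ⟨fun h => ⟨he, h⟩, fun h => h.2⟩
  · intro h
    show FU S P U = T
    ext e
    rw [mem_FU]
    constructor
    · rintro ⟨he, hω⟩
      have h1 := h (toE e) (Finset.mem_coe.mpr (Finset.mem_image_of_mem _ he))
      have h2 : (U (toE e) : ℝ) ≤ P (unE (toE e)) ↔ toE e ∈ T.image toE := h1
      rw [toE_inj.mem_finset_image, unE_toE] at h2
      exact h2.mp hω
    · intro he
      have h1 := h (toE e) (Finset.mem_coe.mpr (Finset.mem_image_of_mem _ (hT he)))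
      have h2 : (U (toE e) : ℝ) ≤ P (unE (toE e)) ↔ toE e ∈ T.image toE := h1
      rw [toE_inj.mem_finset_image, unE_toE] at h2
      exact ⟨hT he, h2.mpr he⟩

theorem meas_le (a : ℝ) (Q : Prop) : MeasurableSet {x : unitInterval | (x:ℝ) ≤ a ↔ Q} := by
  have h1 : MeasurableSet {x : unitInterval | (x:ℝ) ≤ a} :=
    measurableSet_le measurable_subtype_coe measurable_const
  by_cases hQ : Q
  · simpa [hQ] using h1
  · have : {x : unitInterval | (x:ℝ) ≤ a ↔ Q} = {x : unitInterval | (x:ℝ) ≤ a}ᶜ := by
      ext x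
      simp [hQ]
    rw [this]
    exact h1.compl

theorem vol_le {a : ℝ} (h0 : 0 ≤ a) (h1 : a ≤ 1) :
    ((volume : Measure unitInterval) {x : unitInterval | (x:ℝ) ≤ a}).toReal = a := by
  have : {x : unitInterval | (x:ℝ) ≤ a} = Set.Iic (⟨a, h0, h1⟩ : unitInterval) := by
    ext x
    simp only [Set.mem_Iic]
    rfl
  rw [this, unitInterval.volume_Iic, ENNReal.toReal_ofReal h0]

theorem vol_iff {a : ℝ} (h0 : 0 ≤ a) (h1 : a ≤ 1) (Q : Prop) [Decidable Q] :
    ((volume : Measure unitInterval) {x : unitInterval | (x:ℝ) ≤ a ↔ Q}).toReal =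
      if Q then a else 1 - a := by
  by_cases hQ : Q
  · simp only [hQ, iff_true, if_true]
    exact vol_le h0 h1
  · rw [if_neg hQ]
    have : {x : unitInterval | (x:ℝ) ≤ a ↔ Q} = {x : unitInterval | (x:ℝ) ≤ a}ᶜ := by
      ext x
      simp [hQ]
    rw [this]
    have h2 : MeasurableSet {x : unitInterval | (x:ℝ) ≤ a} :=
      measurableSet_le measurable_subtype_coe measurable_const
    have h3 := probReal_compl_eq_one_sub (μ := (volume : Measure unitInterval)) h2
    rw [measureReal_def, measureReal_def] at h3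
    rw [h3, vol_le h0 h1]

theorem meas_FU (S T : Finset Edg) (P : Edg → ℝ) : MeasurableSet {U | FU S P U = T} := by
  by_cases hT : T ⊆ S
  · rw [FU_eq_pi P hT]
    exact MeasurableSet.pi (Finset.countable_toSet _) (fun _ _ => meas_le _ _)
  · have : {U | FU S P U = T} = ∅ := by
      ext U
      simp only [Set.mem_empty_iff_false, iff_false]
      intro h
      have h' : FU S P U = T := h
      exact hT (h' ▸ fin_subset _ _)
    rw [this]
    exact MeasurableSet.empty

theorem FU_law {P : Edg → ℝ} (hP : Ok P) {S T : Finset Edg} (hT : T ⊆ S) :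
    wlaw.real {U | FU S P U = T} = (∏ e ∈ T, P e) * ∏ e ∈ S \ T, (1 - P e) := by
  classical
  rw [measureReal_def, FU_eq_pi P hT]
  unfold wlaw
  rw [Measure.infinitePi_pi _ (fun _ _ => meas_le _ _), ENNReal.toReal_prod,
    Finset.prod_image (toE_inj.injOn)]
  have h1 : ∀ e ∈ S, ((volume : Measure unitInterval)
      {x : unitInterval | (x:ℝ) ≤ P (unE (toE e)) ↔ toE e ∈ T.image toE}).toReal =
        if e ∈ T then P e else 1 - P e := by
    intro e _
    rw [vol_iff (by rw [unE_toE]; exact (hP e).1) (by rw [unE_toE]; exact (hP e).2), unE_toE]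
    simp only [toE_inj.mem_finset_image]
  rw [Finset.prod_congr rfl h1, Finset.prod_ite]
  congr 1
  · apply Finset.prod_congr _ (fun _ _ => rfl)
    ext e
    simp only [Finset.mem_filter]
    exact ⟨fun h => h.2, fun h => ⟨hT h, h⟩⟩
  · apply Finset.prod_congr _ (fun _ _ => rfl)
    ext e
    simp only [Finset.mem_filter, Finset.mem_sdiff]

theorem FU_union (S : Finset Edg) (P : Edg → ℝ) (Q : Finset Edg → Prop) [DecidablePred Q] :
    {U | Q (FU S P U)} = ⋃ T ∈ S.powerset.filter Q, {U | FU S P U = T} := by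
  ext U
  simp only [Set.mem_iUnion, Finset.mem_filter, Finset.mem_powerset]
  constructor
  · intro h
    exact ⟨FU S P U, ⟨fin_subset _ _, h⟩, rfl⟩
  · rintro ⟨T, ⟨-, hQ⟩, hω⟩
    have hω' : FU S P U = T := hω
    show Q (FU S P U)
    rw [hω']; exact hQ

theorem meas_FUE (S : Finset Edg) (P : Edg → ℝ) (Q : Finset Edg → Prop) :
    MeasurableSet {U | Q (FU S P U)} := by
  classical
  rw [FU_union]
  exact Finset.measurableSet_biUnion _ (fun T _ => meas_FU S T P)

/-- The law of the edges below a threshold. -/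
theorem FU_event {P : Edg → ℝ} (hP : Ok P) (S : Finset Edg) (Q : Finset Edg → Prop) :
    wlaw.real {U | Q (FU S P U)} = Pr P S Q := by
  classical
  rw [FU_union, measureReal_biUnion_finset]
  · unfold Pr Ex
    rw [Finset.sum_filter]
    apply Finset.sum_congr rfl
    intro T hT
    split_ifs with hQ
    · show _ = _ * ind (Q T)
      rw [FU_law hP (Finset.mem_powerset.mp hT), ind_of hQ, mul_one]
    · show _ = _ * ind (Q T)
      rw [ind_not_of hQ, mul_zero]
  · intro T _ T' _ hne
    rw [Function.onFun, Set.disjoint_left]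
    intro U h1 h2
    exact hne ((show FU S P U = T from h1).symm.trans (show FU S P U = T' from h2))
  · intro T _
    exact meas_FU S T P

end Run7.h537
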