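import Pool.Agent.Run7.h537.InvB
import Pool.Agent.H974R2.Glue

/-!
Invasion percolation on the square lattice: probability of the chain, independence.
-/

set_option autoImplicit false

namespace Run7.h537

open H974 Finset MeasureTheory

/-- Point reflection at the origin. -/
def ngt : LSym where
  φ := { toFun := fun e => if e.2.2 then (-e.1 - 1, -e.2.1, true) else (-e.1, -e.2.1 - 1, false)
         invFun := fun e => if e.2.2 then (-e.1 - 1, -e.2.1, true) else (-e.1, -e.2.1 - 1, false)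
         left_inv := by rintro ⟨x, y, _ | _⟩ <;> (simp; try ring)
         right_inv := by rintro ⟨x, y, _ | _⟩ <;> (simp; try ring) }
  ψ := { toFun := fun v => (-v.1, -v.2)
         invFun := fun v => (-v.1, -v.2)
         left_inv := by intro v; simp
         right_inv := by intro v; simp }
  compat := by
    rintro ⟨x, y, _ | _⟩
    · right
      constructor <;> simp [src, tgt] <;> ring
    · right
      constructor <;> simp [src, tgt] <;> ring

/-- The identity. -/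
def idS : LSym where
  φ := Equiv.refl _
  ψ := Equiv.refl _
  compat := fun _ => Or.inl ⟨rfl, rfl⟩

theorem ngt_ψ (v : Vtx) : ngt.ψ v = (-v.1, -v.2) := rfl
theorem ngt_φt (x y : ℤ) : ngt.φ.symm (x, y, true) = (-x - 1, -y, true) := rfl
theorem ngt_φf (x y : ℤ) : ngt.φ.symm (x, y, false) = (-x, -y - 1, false) := rfl

theorem ngt_RE (a b c d : ℤ) : ngt.mp (RE a b c d) = RE (-b) (-a) (-d) (-c) := by
  ext ⟨x, y, _ | _⟩
  · rw [LSym.mem_mp, ngt_φf, mem_RE_false, mem_RE_false]; omega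
  · rw [LSym.mem_mp, ngt_φt, mem_RE_true, mem_RE_true]; omega

theorem idS_mp (F : Finset Edg) : idS.mp F = F := by
  ext e
  rw [LSym.mem_mp]
  rfl

/-- The two symmetries which are used. -/
structure Gs (g : LSym) : Prop where
  box : ∀ n : ℕ, g.mp (boxE n) = boxE n
  zero : g.ψ (0, 0) = (0, 0)
  inv : ∀ F : Finset Edg, g.mp (g.mp F) = F
  far : ∀ (x : Vtx) (m : ℤ), (x.1 ≤ -m ∨ m ≤ x.1 ∨ x.2 ≤ -m ∨ m ≤ x.2) →
    ((g.ψ x).1 ≤ -m ∨ m ≤ (g.ψ x).1 ∨ (g.ψ x).2 ≤ -m ∨ m ≤ (g.ψ x).2)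

theorem gs_id : Gs idS :=
  ⟨fun _ => idS_mp _, rfl, fun _ => by rw [idS_mp, idS_mp], fun _ _ h => h⟩

theorem gs_ngt : Gs ngt := by
  refine ⟨fun n => ?_, rfl, fun F => ?_, fun x m h => ?_⟩
  · unfold boxE
    rw [ngt_RE]
    simp
  · ext ⟨x, y, _ | _⟩
    · rw [LSym.mem_mp, LSym.mem_mp, ngt_φf, ngt_φf]; simp
    · rw [LSym.mem_mp, LSym.mem_mp, ngt_φt, ngt_φt]; simp
  · rw [ngt_ψ]
    simp only
    omega

/-- `no_finite` with a symmetry. -/
theorem no_finite_g {g : LSym} (hg : Gs g) {A : Finset Vtx} {F : Set Edg} {N : ℕ} (hN : 2 ≤ N)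
    (h0 : ((0, 0) : Vtx) ∈ A) (hconn : ∀ w ∈ A, Reach (inn ↑A) (0, 0) w) (hcl : Cl F ↑A)
    {x : Vtx} (hx : x ∈ A)
    (hx2 : (g.ψ x).1 ≤ -(2 * N : ℕ) ∨ (2 * N : ℕ) ≤ (g.ψ x).1 ∨ (g.ψ x).2 ≤ -(2 * N : ℕ) ∨
      (2 * N : ℕ) ≤ (g.ψ x).2)
    {J : ℕ} (hJ : ∀ a ∈ A, (g.ψ a).1 < 2 * (2^J * N : ℕ) ∧ (g.ψ a).2 < 2 * (2^J * N : ℕ))
    (hG : Gd N J (g.mp (fin (BJ N J) F))) : False := by
  classical
  have hcoe : (↑(A.map g.ψ.toEmbedding) : Set Vtx) = g.ψ '' ↑A := by simp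
  have hmem : ∀ a, a ∈ A → g.ψ a ∈ A.map g.ψ.toEmbedding := by
    intro a ha
    rw [Finset.mem_map]
    exact ⟨a, ha, rfl⟩
  have himg : g.φ '' inn ↑A ⊆ inn (g.ψ '' (↑A : Set Vtx)) := by
    rintro _ ⟨e, ⟨he1, he2⟩, rfl⟩
    rcases g.compat e with ⟨h1, h2⟩ | ⟨h1, h2⟩
    · exact ⟨by rw [h1]; exact Set.mem_image_of_mem _ he1, by rw [h2]; exact Set.mem_image_of_mem _ he2⟩
    · exact ⟨by rw [h1]; exact Set.mem_image_of_mem _ he2, by rw [h2]; exact Set.mem_image_of_mem _ he1⟩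
  refine no_finite (A := A.map g.ψ.toEmbedding) (F := g.φ '' F) hN ?_ ?_ ?_ (hmem x hx) hx2
    (J := J) ?_ ?_
  · have := hmem _ h0
    rwa [hg.zero] at this
  · intro w hw
    rw [Finset.mem_map] at hw
    obtain ⟨a, ha, rfl⟩ := hw
    have h1 := g.reach (hconn a ha)
    rw [hg.zero] at h1
    rw [hcoe]
    exact h1.mono himg
  · rw [hcoe]
    rintro _ ⟨e, he, rfl⟩
    have h1 := hcl e he
    have h2 : ∀ w, g.ψ w ∈ g.ψ '' (↑A : Set Vtx) ↔ w ∈ (↑A : Set Vtx) := fun w =>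
      g.ψ.injective.mem_set_image
    rcases g.compat e with ⟨k1, k2⟩ | ⟨k1, k2⟩
    · rw [k1, k2, h2, h2]; exact h1
    · rw [k1, k2, h2, h2]; exact h1.symm
  · intro a ha
    rw [Finset.mem_map] at ha
    obtain ⟨a, ha, rfl⟩ := ha
    exact hJ a ha
  · have : g.mp (fin (BJ N J) F) = fin (BJ N J) (g.φ '' F) := by
      ext e
      have h1 : e ∈ BJ N J ↔ g.φ.symm e ∈ BJ N J := by
        rw [← LSym.mem_mp]
        unfold BJ
        rw [hg.box]
      rw [LSym.mem_mp, mem_fin, mem_fin, ← h1]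
      constructor
      · rintro ⟨k1, k2⟩
        exact ⟨k1, g.φ.symm e, k2, g.φ.apply_symm_apply e⟩
      · rintro ⟨k1, e', k2, rfl⟩
        exact ⟨k1, by simpa using k2⟩
    rw [← this]
    exact hG

/-! ### Locality -/

/-- The region on which the chain depends. -/
noncomputable def QJ (N J : ℕ) : Finset Edg :=
  boxE (2 * N) ∪ RE 0 (2 * (2^J * N : ℕ)) 0 (2 * (2^J * N : ℕ))

theorem Circ_local' {N : ℕ} {Q : Finset Edg} (hQ : boxE (2 * N) ⊆ Q) (F : Finset Edg) :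
    Circ N (2 * N : ℕ) F ↔ Circ N (2 * N : ℕ) (F ∩ Q) := by
  have hN0 : (0:ℤ) ≤ N := by positivity
  have hQ' : RE (-((2 * N : ℕ) : ℤ)) ((2 * N : ℕ) : ℤ) (-((2 * N : ℕ) : ℤ)) ((2 * N : ℕ) : ℤ) ⊆ Q :=
    hQ
  have e1 : ((2 * N : ℕ) : ℤ) = 2 * N := by push_cast; ring
  unfold Circ
  rw [LRc_local (F := F) (S := Q), LRc_local (F := F) (a := -((2 * N : ℕ) : ℤ))
    (c := -((2 * N : ℕ) : ℤ)) (S := Q), TBc_local (F := F) (S := Q),
    TBc_local (F := F) (a := -((2 * N : ℕ) : ℤ)) (S := Q)]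
  · exact TBE_subset_RE.trans ((RE_subset le_rfl (by omega) le_rfl le_rfl).trans hQ')
  · exact TBE_subset_RE.trans ((RE_subset (by omega) le_rfl le_rfl le_rfl).trans hQ')
  · exact LRE_subset_RE.trans ((RE_subset le_rfl le_rfl le_rfl (by omega)).trans hQ')
  · exact LRE_subset_RE.trans ((RE_subset le_rfl le_rfl (by omega) le_rfl).trans hQ')

theorem Step_local' {N j : ℕ} {Q : Finset Edg}
    (hQ : RE 0 (2 * (2^j * N : ℕ)) 0 (2 * (2^j * N : ℕ)) ⊆ Q) (F : Finset Edg) :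
    Step N j F ↔ Step N j (F ∩ Q) := by
  have h0 : (0:ℤ) ≤ (2^j * N : ℕ) := by positivity
  unfold Step
  split_ifs with h
  · apply LRc_local
    exact LRE_subset_RE.trans ((RE_subset le_rfl le_rfl le_rfl (by omega)).trans hQ)
  · apply TBc_local
    exact TBE_subset_RE.trans ((RE_subset le_rfl (by omega) le_rfl le_rfl).trans hQ)

theorem Gd_local {N J : ℕ} {Q : Finset Edg} (hQ : QJ N J ⊆ Q) (F : Finset Edg) :
    Gd N J F ↔ Gd N J (F ∩ Q) := by
  unfold Gd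
  rw [Circ_local' (Finset.subset_union_left.trans hQ) F]
  refine and_congr Iff.rfl (forall₂_congr fun j hj => ?_)
  apply Step_local'
  refine Finset.Subset.trans ?_ (Finset.subset_union_right.trans hQ)
  have h1 : 2^j * N ≤ 2^J * N := Nat.mul_le_mul_right _ (Nat.pow_le_pow_right (by norm_num) hj)
  have h2 : ((2^j * N : ℕ) : ℤ) ≤ (2^J * N : ℕ) := by exact_mod_cast h1
  exact RE_subset le_rfl (by omega) le_rfl (by omega)

theorem QJ_subset_BJ (N J : ℕ) : QJ N J ⊆ BJ N J := by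
  have hle : N ≤ 2^J * N := Nat.le_mul_of_pos_left _ (by positivity)
  have h0 : (0:ℤ) ≤ (2^J * N : ℕ) := by positivity
  apply Finset.union_subset
  · exact boxE_mono (by omega)
  · unfold BJ boxE
    push_cast
    push_cast at h0
    exact RE_subset (by omega) (by omega) (by omega) (by omega)

/-- The region of the arm. -/
noncomputable def RV (v : Vtx) (r : ℕ) : Finset Edg := RE (v.1 - r) (v.1 + r) (v.2 - r) (v.2 + r)

/-- `v` is joined to distance `r`. -/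
def ArmV (v : Vtx) (r : ℕ) (F : Finset Edg) : Prop :=
  ∃ u : Vtx, (u.1 ≤ v.1 - r ∨ v.1 + r ≤ u.1 ∨ u.2 ≤ v.2 - r ∨ v.2 + r ≤ u.2) ∧
    Reach ((↑F : Set Edg) ∩ ↑(RV v r)) v u

theorem ArmV_local {v : Vtx} {r : ℕ} {Q : Finset Edg} (hQ : RV v r ⊆ Q) (F : Finset Edg) :
    ArmV v r F ↔ ArmV v r (F ∩ Q) := by
  unfold ArmV
  rw [coe_inter_eq hQ]

theorem ArmV.mono {v : Vtx} {r : ℕ} {F G : Finset Edg} (h : F ⊆ G) (hF : ArmV v r F) :
    ArmV v r G := by
  obtain ⟨u, h1, h2⟩ := hF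
  exact ⟨u, h1, h2.mono (Set.inter_subset_inter_left _ (by exact_mod_cast h))⟩

theorem pr_ArmV_le {q : ℝ} (h0 : 0 ≤ q) (h1 : q ≤ 1) (S : Finset Edg) (v : Vtx) (r : ℕ) :
    Pr (fun _ => q) S (ArmV v r) ≤ arm q r := by
  refine le_trans (Pr_mono (okq h0 h1) ?_) (arm_bound h0 h1 S v r)
  rintro F _ ⟨u, hu, hr⟩
  exact ⟨u, hu, hr.mono Set.inter_subset_left⟩

/-- Independence of two events at two levels. -/
theorem mix {p p' : ℝ} (hp0 : 0 ≤ p) (hp1 : p ≤ 1) (hp0' : 0 ≤ p') (hp1' : p' ≤ 1)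
    {S T1 T2 : Finset Edg} (h1 : T1 ⊆ S) (h2 : T2 ⊆ S) (hd : Disjoint T1 T2)
    {A B : Finset Edg → Prop} (hA : ∀ F, F ⊆ S → (A F ↔ A (F ∩ T1)))
    (hB : ∀ F, F ⊆ S → (B F ↔ B (F ∩ T2))) :
    wlaw.real {U | A (FU S (fun _ => p) U) ∧ B (FU S (fun _ => p') U)} =
      Pr (fun _ => p) S A * Pr (fun _ => p') S B := by
  classical
  set P : Edg → ℝ := fun e => if e ∈ T2 then p' else p with hP
  have okP : Ok P := by
    intro e
    rw [hP]
    simp only
    split_ifs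
    · exact ⟨hp0', hp1'⟩
    · exact ⟨hp0, hp1⟩
  have e1 : ∀ U, FU S (fun _ => p) U ∩ T1 = FU S P U ∩ T1 := by
    intro U
    ext e
    rw [Finset.mem_inter, Finset.mem_inter, mem_FU, mem_FU]
    constructor
    · rintro ⟨⟨k1, k2⟩, k3⟩
      refine ⟨⟨k1, ?_⟩, k3⟩
      have : e ∉ T2 := Finset.disjoint_left.mp hd k3
      rw [hP]; simp only [if_neg this]; exact k2
    · rintro ⟨⟨k1, k2⟩, k3⟩
      refine ⟨⟨k1, ?_⟩, k3⟩
      have : e ∉ T2 := Finset.disjoint_left.mp hd k3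
      rw [hP] at k2; simpa only [if_neg this] using k2
  have e2 : ∀ U, FU S (fun _ => p') U ∩ T2 = FU S P U ∩ T2 := by
    intro U
    ext e
    rw [Finset.mem_inter, Finset.mem_inter, mem_FU, mem_FU]
    constructor
    · rintro ⟨⟨k1, k2⟩, k3⟩
      refine ⟨⟨k1, ?_⟩, k3⟩
      rw [hP]; simp only [if_pos k3]; exact k2
    · rintro ⟨⟨k1, k2⟩, k3⟩
      refine ⟨⟨k1, ?_⟩, k3⟩
      rw [hP] at k2; simpa only [if_pos k3] using k2
  have e3 : {U | A (FU S (fun _ => p) U) ∧ B (FU S (fun _ => p') U)} =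
      {U | A (FU S P U) ∧ B (FU S P U)} := by
    ext U
    show (A (FU S (fun _ => p) U) ∧ B (FU S (fun _ => p') U)) ↔ (A (FU S P U) ∧ B (FU S P U))
    rw [hA (FU S (fun _ => p) U) (fin_subset _ _), e1, ← hA (FU S P U) (fin_subset _ _),
      hB (FU S (fun _ => p') U) (fin_subset _ _), e2, ← hB (FU S P U) (fin_subset _ _)]
  have e4 : wlaw.real {U | A (FU S P U) ∧ B (FU S P U)} = Pr P S (fun F => A F ∧ B F) :=
    FU_event okP S (fun F => A F ∧ B F)
  rw [e3]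
  refine e4.trans ?_
  rw [Pr_indep h1 h2 hd hA hB]
  congr 1
  · rw [Pr_local h1 hA, Pr_local h1 hA]
    apply Pr_congr_param
    intro e he
    have : e ∉ T2 := Finset.disjoint_left.mp hd he
    rw [hP]; simp only [if_neg this]
  · rw [Pr_local h2 hB, Pr_local h2 hB]
    apply Pr_congr_param
    intro e he
    rw [hP]; simp only [if_pos he]

/-! ### The probability of the chain -/

theorem pr_not_steps {p : ℝ} (h0 : 0 ≤ p) (h1 : p ≤ 1) {N : ℕ} (J : ℕ) {S : Finset Edg}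
    (hS : boxE (2 * (2^J * N)) ⊆ S) :
    Pr (fun _ => p) S (fun F => ¬ ∀ j ≤ J, Step N j F) ≤
      ∑ j ∈ range (J + 1), eps p (2^j * N) := by
  have ok := okq h0 h1
  induction J with
  | zero =>
    rw [Finset.sum_range_one, ← sub_sub_cancel 1 (eps p (2^0 * N)), ← pr_step hS, ← Pr_not]
    apply Pr_mono ok
    intro F _ h h'
    apply h
    intro j hj
    have : j = 0 := by omega
    rw [this]; exact h'
  | succ J ih =>
    have hle : 2 * (2^J * N) ≤ 2 * (2^(J+1) * N) := by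
      rw [pow_succ]
      nlinarith [Nat.zero_le (2^J * N)]
    have i1 := ih ((boxE_mono hle).trans hS)
    rw [Finset.sum_range_succ]
    have i2 : Pr (fun _ => p) S (fun F => ¬ ∀ j ≤ J + 1, Step N j F) ≤
        Pr (fun _ => p) S (fun F => (¬ ∀ j ≤ J, Step N j F) ∨ ¬ Step N (J + 1) F) := by
      apply Pr_mono ok
      intro F _ h
      by_contra hcon
      push Not at hcon
      apply h
      intro j hj
      rcases Nat.lt_or_ge j (J + 1) with hlt | hge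
      · exact hcon.1 j (by omega)
      · have : j = J + 1 := by omega
        rw [this]; exact hcon.2
    have i3 := Pr_or_le ok S (fun F => ¬ ∀ j ≤ J, Step N j F) (fun F => ¬ Step N (J + 1) F)
    have i4 : Pr (fun _ => p) S (fun F => ¬ Step N (J + 1) F) = eps p (2^(J+1) * N) := by
      rw [Pr_not, pr_step hS]; ring
    linarith

/-- Doubly exponential decay along dyadic scales. -/
theorem eps_pw {p : ℝ} (h0 : 0 ≤ p) (h1 : p ≤ 1) {N : ℕ} (hN : 2 ≤ N)
    (he : eps p N ≤ 1/100) (j : ℕ) : 25 * eps p (2^j * N) ≤ (1/4)^(2^j) := by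
  induction j with
  | zero => norm_num; linarith
  | succ j ih =>
      have h2 : 2 ≤ 2^j * N := by
        calc 2 ≤ N := hN
          _ ≤ 2^j * N := Nat.le_mul_of_pos_left _ (by positivity)
      have h3 := eps_double h0 h1 h2
      have h4 := eps_nonneg h0 h1 (2^j * N)
      have h5 : 2^(j+1) * N = 2 * (2^j * N) := by rw [pow_succ]; ring
      rw [h5]
      have h6 : ((1:ℝ)/4)^(2^(j+1)) = ((1/4)^(2^j))^2 := by
        rw [← pow_mul, pow_succ]
      rw [h6]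
      have h7 : (25 * eps p (2^j * N))^2 ≤ ((1/4)^(2^j))^2 :=
        pow_le_pow_left₀ (by positivity) ih 2
      linarith

theorem pow_aux (i j : ℕ) : (1/4 : ℝ)^(2^(i + j)) ≤ (1/4 : ℝ)^(2^i) * (1/4)^j := by
  rw [← pow_add]
  apply pow_le_pow_of_le_one (by norm_num) (by norm_num)
  rw [pow_add]
  have h1 : 1 ≤ 2^i := Nat.one_le_two_pow
  have h2 : j + 1 ≤ 2^j := Nat.lt_two_pow_self
  nlinarith

/-- The failure probability of the chain at a super-critical level. -/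
theorem pr_not_Gd {p : ℝ} (h0 : 0 ≤ p) (h1 : p ≤ 1) {N1 : ℕ} (hN1 : 2 ≤ N1)
    (he : eps p N1 ≤ 1/100) (i J : ℕ) {S : Finset Edg} (hS : BJ (2^i * N1) J ⊆ S) :
    Pr (fun _ => p) S (fun F => ¬ Gd (2^i * N1) J F) ≤ (1/4)^(2^i) := by
  have ok := okq h0 h1
  obtain ⟨N, hN⟩ : ∃ N, N = 2^i * N1 := ⟨_, rfl⟩
  rw [← hN] at hS ⊢
  have hN2 : 2 ≤ N := by
    rw [hN]
    calc 2 ≤ N1 := hN1
      _ ≤ 2^i * N1 := Nat.le_mul_of_pos_left _ (by positivity)
  have hle : N ≤ 2^J * N := Nat.le_mul_of_pos_left _ (by positivity)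
  have hb : boxE (2 * N) ⊆ S := (boxE_mono (by omega)).trans hS
  have i1 := pr_circ_ge h0 h1 hN2 hb
  have i2 := pr_not_steps h0 h1 J hS
  have i3 : Pr (fun _ => p) S (fun F => ¬ Gd N J F) ≤
      Pr (fun _ => p) S (fun F => ¬ Circ N (2 * N : ℕ) F ∨ ¬ ∀ j ≤ J, Step N j F) := by
    apply Pr_mono ok
    intro F _ h
    by_contra hcon
    push Not at hcon
    exact h ⟨hcon.1, hcon.2⟩
  have i4 := Pr_or_le ok S (fun F => ¬ Circ N (2 * N : ℕ) F) (fun F => ¬ ∀ j ≤ J, Step N j F)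
  have i5 : Pr (fun _ => p) S (fun F => ¬ Circ N (2 * N : ℕ) F) =
      1 - Pr (fun _ => p) S (Circ N (2 * N : ℕ)) := Pr_not _ _
  have key : ∀ j, 25 * eps p (2^j * N) ≤ (1/4 : ℝ)^(2^i) * (1/4)^j := by
    intro j
    have h3 := eps_pw h0 h1 hN1 he (i + j)
    have h4 : 2^j * N = 2^(i + j) * N1 := by rw [hN, pow_add]; ring
    rw [h4]
    exact h3.trans (pow_aux i j)
  have k0 := key 0
  rw [pow_zero, one_mul, pow_zero, mul_one] at k0
  have i6 : 25 * ∑ j ∈ range (J + 1), eps p (2^j * N) ≤ (1/4 : ℝ)^(2^i) * 2 := by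
    rw [Finset.mul_sum]
    calc ∑ j ∈ range (J + 1), 25 * eps p (2^j * N)
        ≤ ∑ j ∈ range (J + 1), (1/4 : ℝ)^(2^i) * (1/4)^j := Finset.sum_le_sum (fun j _ => key j)
      _ = (1/4 : ℝ)^(2^i) * ∑ j ∈ range (J + 1), (1/4 : ℝ)^j := by rw [Finset.mul_sum]
      _ ≤ (1/4 : ℝ)^(2^i) * 2 := by
          apply mul_le_mul_of_nonneg_left _ (by positivity)
          have : ∀ n : ℕ, ∑ j ∈ range n, (1/4 : ℝ)^j ≤ 4/3 * (1 - (1/4 : ℝ)^n) := by
            intro n
            induction n with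
            | zero => simp
            | succ n ih =>
              rw [Finset.sum_range_succ, pow_succ]
              linarith
          have h5 := this (J + 1)
          have h6 : (0:ℝ) < (1/4)^(J+1) := by positivity
          linarith
  have i7 : (0:ℝ) < (1/4)^(2^i) := by positivity
  linarith

end Run7.h537
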