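import Pool.Agent.Run7.h537.InvC

/-!
Invasion percolation on the square lattice: the upper bound.
-/

set_option autoImplicit false

namespace Run7.h537

open H974 Finset MeasureTheory

theorem FU_const (S : Finset Edg) (p : ℝ) (U : sqLattice.edgeSet → unitInterval) :
    FU S (fun _ => p) U = fin S (lev (wt U) p) := rfl

theorem fin_inter {S T : Finset Edg} (h : T ⊆ S) (L : Set Edg) : fin S L ∩ T = fin T L := by
  ext e
  rw [Finset.mem_inter, mem_fin, mem_fin]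
  exact ⟨fun k => ⟨k.2, k.1.2⟩, fun k => ⟨⟨h k.1, k.2⟩, k.1⟩⟩

theorem Gd_iff {g : LSym} (hg : Gs g) {N J : ℕ} {S : Finset Edg} (hS : BJ N J ⊆ S) (L : Set Edg) :
    Gd N J (g.mp (fin S L)) ↔ Gd N J (g.mp (fin (BJ N J) L)) := by
  rw [Gd_local (QJ_subset_BJ N J) (g.mp (fin S L))]
  have h1 : g.mp (BJ N J) = BJ N J := hg.box _
  have h2 : g.mp (fin S L) ∩ BJ N J = g.mp (fin (BJ N J) L) := by
    rw [← fin_inter hS L, LSym.mp_inter, h1]
  rw [h2]

/-- The chain fails at level `p`. -/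
def BadU (g : LSym) (N : ℕ) (p : ℝ) (U : sqLattice.edgeSet → unitInterval) : Prop :=
  ∃ J, ¬ Gd N J (g.mp (fin (BJ N J) (lev (wt U) p)))

/-- The arm from `v` at level `p`. -/
def AmU (v : Vtx) (r : ℕ) (p : ℝ) (U : sqLattice.edgeSet → unitInterval) : Prop :=
  ArmV v r (fin (RV v r) (lev (wt U) p))

theorem BJ_mono {N J J' : ℕ} (h : J ≤ J') : BJ N J ⊆ BJ N J' := by
  unfold BJ
  apply boxE_mono
  have : 2^J * N ≤ 2^J' * N := Nat.mul_le_mul_right _ (Nat.pow_le_pow_right (by norm_num) h)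
  omega

theorem not_Gd_mono {g : LSym} (hg : Gs g) {N J J' : ℕ} (h : J ≤ J') (L : Set Edg)
    (hb : ¬ Gd N J (g.mp (fin (BJ N J) L))) : ¬ Gd N J' (g.mp (fin (BJ N J') L)) := by
  intro hG
  apply hb
  rw [← Gd_iff hg (BJ_mono h) L]
  exact ⟨hG.1, fun j hj => hG.2 j (hj.trans h)⟩

theorem exitArm {L : Set Edg} {v u : Vtx} {r : ℕ} (hr : Reach L v u)
    (hu : u.1 ≤ v.1 - r ∨ v.1 + r ≤ u.1 ∨ u.2 ≤ v.2 - r ∨ v.2 + r ≤ u.2) :
    ArmV v r (fin (RV v r) L) := by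
  obtain ⟨w, k1, k2, k3⟩ := first_exit (a := v.1 - r) (b := v.1 + r) (c := v.2 - r)
    (d := v.2 + r) (u := v) (by unfold inR; omega) hr hu
  refine ⟨w, by omega, k3.mono ?_⟩
  rintro e ⟨k4, k5⟩
  refine ⟨?_, k5⟩
  rw [Finset.mem_coe, mem_fin]
  exact ⟨k5, k4⟩

theorem dichotomy {U : sqLattice.edgeSet → unitInterval} {g : LSym} (hg : Gs g) {N r R : ℕ}
    {v : Vtx} (hN : 2 ≤ N) (hR : (R:ℤ) ≤ v.1 ∨ v.1 ≤ -R ∨ (R:ℤ) ≤ v.2 ∨ v.2 ≤ -R)
    (hrR : r + 2 * N ≤ R) {A : ℕ → Finset Vtx} (h : IsInv (wt U) A) {n : ℕ} (hv : v ∈ A n)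
    (p : ℝ) : AmU v r p U ∨ BadU g N p U := by
  have hrR' : (r:ℤ) + 2 * N ≤ R := by exact_mod_cast hrR
  by_cases h0 : Reach (lev (wt U) p) v (0, 0)
  · left
    exact exitArm h0 (by simp only; omega)
  · obtain ⟨m, hcl, x, hx, y, hy, e, he⟩ := h.first_visit hv h0
    by_cases hyr : y.1 ≤ v.1 - r ∨ v.1 + r ≤ y.1 ∨ y.2 ≤ v.2 - r ∨ v.2 + r ≤ y.2
    · left
      exact exitArm hy hyr
    · right
      push Not at hyr
      have hxy : x.1 ≤ y.1 + 1 ∧ y.1 ≤ x.1 + 1 ∧ x.2 ≤ y.2 + 1 ∧ y.2 ≤ x.2 + 1 := by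
        obtain ⟨a, b, _ | _⟩ := e
        · simp only [src_mk, tgt_false] at he
          rcases he with ⟨h1, h2⟩ | ⟨h1, h2⟩ <;> subst h1 <;> subst h2 <;> simp only <;> omega
        · simp only [src_mk, tgt_true] at he
          rcases he with ⟨h1, h2⟩ | ⟨h1, h2⟩ <;> subst h1 <;> subst h2 <;> simp only <;> omega
      obtain ⟨B, hB⟩ := ((A m).image
        (fun a => ((g.ψ a).1.natAbs + (g.ψ a).2.natAbs))).exists_le
      refine ⟨B, fun hG => ?_⟩
      refine no_finite_g hg hN (h.zero_mem m) (h.conn m) hcl hx (hg.far x _ ?_) (J := B) ?_ hG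
      · push_cast
        omega
      · intro a ha
        have h1 := hB _ (Finset.mem_image_of_mem _ ha)
        have h2 : B < 2^B := Nat.lt_two_pow_self
        have h3 : 2^B * 1 ≤ 2^B * N := Nat.mul_le_mul_left _ (by omega)
        constructor
        · have : (g.ψ a).1 ≤ (g.ψ a).1.natAbs := Int.le_natAbs
          have h4 : ((g.ψ a).1.natAbs : ℤ) ≤ B := by exact_mod_cast (by omega)
          have h5 : (B : ℤ) < (2^B * N : ℕ) := by exact_mod_cast (by omega)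
          omega
        · have : (g.ψ a).2 ≤ (g.ψ a).2.natAbs := Int.le_natAbs
          have h4 : ((g.ψ a).2.natAbs : ℤ) ≤ B := by exact_mod_cast (by omega)
          have h5 : (B : ℤ) < (2^B * N : ℕ) := by exact_mod_cast (by omega)
          omega

theorem prob_AmU {p : ℝ} (h0 : 0 ≤ p) (h1 : p ≤ 1) (v : Vtx) (r : ℕ) :
    wlaw.real {U | AmU v r p U} ≤ arm p r :=
  (FU_event (okq h0 h1) (RV v r) (ArmV v r)).le.trans (pr_ArmV_le h0 h1 _ v r)

theorem prob_BadAm {g : LSym} (hg : Gs g) {p p' : ℝ} (h0 : 0 ≤ p) (h1 : p ≤ 1) (h0' : 0 ≤ p')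
    (h1' : p' ≤ 1) {N1 i : ℕ} (hN1 : 2 ≤ N1) (he : eps p N1 ≤ 1/100) (v : Vtx) (r : ℕ)
    (hd : ∀ J, Disjoint (RV v r) (g.mp (QJ (2^i * N1) J))) :
    wlaw.real {U | BadU g (2^i * N1) p U ∧ AmU v r p' U} ≤ (1/4)^(2^i) * arm p' r := by
  obtain ⟨N, hN⟩ : ∃ N, N = 2^i * N1 := ⟨_, rfl⟩
  rw [← hN] at hd ⊢
  set E : ℕ → Set (sqLattice.edgeSet → unitInterval) := fun J =>
    {U | ¬ Gd N J (g.mp (fin (BJ N J) (lev (wt U) p))) ∧ AmU v r p' U} with hE
  have hx : 0 ≤ (1/4 : ℝ)^(2^i) * arm p' r := mul_nonneg (by positivity) (arm_nonneg h0' h1' r)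
  have hEJ : ∀ J, wlaw.real (E J) ≤ (1/4)^(2^i) * arm p' r := by
    intro J
    have hbox : g.mp (BJ N J) = BJ N J := hg.box _
    have hs1 : RV v r ⊆ BJ N J ∪ RV v r := Finset.subset_union_right
    have hs2 : g.mp (QJ N J) ⊆ BJ N J ∪ RV v r := by
      have := g.mp_mono (QJ_subset_BJ N J)
      rw [hbox] at this
      exact this.trans Finset.subset_union_left
    have e1 : E J = {U | ArmV v r (FU (BJ N J ∪ RV v r) (fun _ => p') U) ∧
        (fun F => ¬ Gd N J (g.mp F)) (FU (BJ N J ∪ RV v r) (fun _ => p) U)} := by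
      ext U
      show (¬ Gd N J (g.mp (fin (BJ N J) (lev (wt U) p))) ∧ AmU v r p' U) ↔
        (ArmV v r (fin (BJ N J ∪ RV v r) (lev (wt U) p')) ∧
          ¬ Gd N J (g.mp (fin (BJ N J ∪ RV v r) (lev (wt U) p))))
      rw [Gd_iff hg (Finset.subset_union_left) (lev (wt U) p),
        ArmV_local (Finset.Subset.refl (RV v r)) (fin (BJ N J ∪ RV v r) (lev (wt U) p')),
        fin_inter hs1]
      exact and_comm
    have e3 := mix (A := ArmV v r) (B := fun F => ¬ Gd N J (g.mp F)) h0' h1' h0 h1 hs1 hs2 (hd J)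
      (fun F _ => ArmV_local (Finset.Subset.refl _) F) (by
        intro F _
        show ¬ Gd N J (g.mp F) ↔ ¬ Gd N J (g.mp (F ∩ g.mp (QJ N J)))
        rw [LSym.mp_inter, hg.inv, ← Gd_local (Finset.Subset.refl (QJ N J)) (g.mp F)])
    rw [e1]
    refine e3.le.trans ?_
    · have i1 := pr_ArmV_le h0' h1' (BJ N J ∪ RV v r) v r
      have i2 : Pr (fun _ => p) (BJ N J ∪ RV v r) (fun F => ¬ Gd N J (g.mp F)) ≤ (1/4)^(2^i) := by
        rw [← LSym.pr g p (BJ N J ∪ RV v r) (fun F => ¬ Gd N J F), hN]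
        apply pr_not_Gd h0 h1 hN1 he i J
        rw [← hN]
        have := g.mp_mono (Finset.subset_union_left (s₁ := BJ N J) (s₂ := RV v r))
        rwa [hbox] at this
      have i3 := Pr_nonneg (okq h0 h1) (BJ N J ∪ RV v r) (fun F => ¬ Gd N J (g.mp F))
      have i4 := arm_nonneg h0' h1' r
      calc _ ≤ arm p' r * (1/4)^(2^i) := mul_le_mul i1 i2 i3 i4
        _ = _ := mul_comm _ _
  have hmono : Monotone E := by
    intro J J' hJ U hU
    exact ⟨not_Gd_mono hg hJ _ hU.1, hU.2⟩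
  have e2 : {U | BadU g N p U ∧ AmU v r p' U} = ⋃ J, E J := by
    ext U
    rw [Set.mem_iUnion]
    constructor
    · rintro ⟨⟨J, hJ⟩, hA⟩
      exact ⟨J, hJ, hA⟩
    · rintro ⟨J, hJ, hA⟩
      exact ⟨⟨J, hJ⟩, hA⟩
  rw [e2, measureReal_def]
  apply ENNReal.toReal_le_of_le_ofReal hx
  rw [hmono.measure_iUnion]
  apply iSup_le
  intro J
  rw [ENNReal.le_ofReal_iff_toReal_le (measure_ne_top _ _) hx]
  exact hEJ J

theorem prob_Bad {g : LSym} (hg : Gs g) {p : ℝ} (h0 : 0 ≤ p) (h1 : p ≤ 1) {N1 i : ℕ}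
    (hN1 : 2 ≤ N1) (he : eps p N1 ≤ 1/100) :
    wlaw.real {U | BadU g (2^i * N1) p U} ≤ (1/4)^(2^i) := by
  have hE : RV (0, 0) 0 = ∅ := by
    ext ⟨x, y, _ | _⟩
    · unfold RV
      simp only [mem_RE_false, Finset.notMem_empty, iff_false]
      push_cast
      omega
    · unfold RV
      simp only [mem_RE_true, Finset.notMem_empty, iff_false]
      push_cast
      omega
  have h := prob_BadAm hg h0 h1 h0 h1 (i := i) hN1 he (0, 0) 0 (by
    intro J; rw [hE]; exact Finset.disjoint_empty_left _)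
  rw [arm_zero, mul_one] at h
  refine le_trans (measureReal_mono ?_) h
  intro U hU
  exact ⟨hU, (0, 0), by simp, Reach.refl _ _⟩

/-- The data of the levels. -/
structure Scl (M : ℕ) (C : ℝ) (q : ℕ → ℝ) : Prop where
  hM : 2 ≤ M
  q0 : ∀ k, 0 ≤ q k
  q1 : ∀ k, q k ≤ 1
  he : ∀ k, eps (q k) (2^k * M) ≤ 1/100
  ha : ∀ k, arm (q k) (2^k) ≤ C * ((2:ℝ)^k)^(-(5/48) : ℝ)

/-- `v` is invaded. -/
def InvU (v : Vtx) (U : sqLattice.edgeSet → unitInterval) : Prop :=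
  ∃ A, IsInv (wt U) A ∧ ∃ n, v ∈ A n

theorem chain_incl (q : ℕ → ℝ) {g : LSym} (hg : Gs g)
    {N r R : ℕ} {v : Vtx} (hN : 2 ≤ N)
    (hR : (R:ℤ) ≤ v.1 ∨ v.1 ≤ -R ∨ (R:ℤ) ≤ v.2 ∨ v.2 ≤ -R) (hrR : r + 2 * N ≤ R)
    {U : sqLattice.edgeSet → unitInterval} (h : InvU v U) (K : ℕ) :
    AmU v r (q K) U ∨ (∃ k < K, BadU g N (q (k + 1)) U ∧ AmU v r (q k) U) ∨
      BadU g N (q 0) U := by
  obtain ⟨A, hA, n, hn⟩ := h
  induction K with
  | zero =>
    rcases dichotomy hg hN hR hrR hA hn (q 0) with h | h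
    · exact Or.inl h
    · exact Or.inr (Or.inr h)
  | succ K ih =>
    rcases ih with h | ⟨k, hk, h⟩ | h
    · rcases dichotomy hg hN hR hrR hA hn (q (K + 1)) with h' | h'
      · exact Or.inl h'
      · exact Or.inr (Or.inl ⟨K, by omega, h', h⟩)
    · exact Or.inr (Or.inl ⟨k, by omega, h⟩)
    · exact Or.inr (Or.inr h)

theorem quarter_le (j : ℕ) : (1/4 : ℝ)^(2^j) ≤ (1/4)^(j + 1) := by
  apply pow_le_pow_of_le_one (by norm_num) (by norm_num)
  exact Nat.lt_two_pow_self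

theorem prob_sum {M : ℕ} {C : ℝ} {q : ℕ → ℝ} (hS : Scl M C q) (hC : 1 ≤ C) {g : LSym} (hg : Gs g)
    {r R K : ℕ} {v : Vtx} (hR : (R:ℤ) ≤ v.1 ∨ v.1 ≤ -R ∨ (R:ℤ) ≤ v.2 ∨ v.2 ≤ -R)
    (hrR : r + 2 * (2^K * M) ≤ R) (hr : 2^K ≤ r)
    (hd : ∀ J, Disjoint (RV v r) (g.mp (QJ (2^K * M) J))) :
    wlaw.real {U | InvU v U} ≤ 3 * C * ((2:ℝ)^K)^(-(5/48) : ℝ) := by
  have hM := hS.hM
  have hN : 2 ≤ 2^K * M := by
    calc 2 ≤ M := hM
      _ ≤ 2^K * M := Nat.le_mul_of_pos_left _ (by positivity)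
  have harm : ∀ k, k ≤ K → arm (q k) r ≤ C * ((2:ℝ)^k)^(-(5/48) : ℝ) := by
    intro k hk
    refine (arm_anti (hS.q0 k) (hS.q1 k) ?_).trans (hS.ha k)
    exact (Nat.pow_le_pow_right (by norm_num) hk).trans hr
  have hsub : {U | InvU v U} ⊆ {U | AmU v r (q K) U} ∪
      ((⋃ k ∈ range K, {U | BadU g (2^K * M) (q (k + 1)) U ∧ AmU v r (q k) U}) ∪
        {U | BadU g (2^K * M) (q 0) U}) := by
    intro U hU
    rcases chain_incl q hg hN hR hrR hU K with h | ⟨k, hk, h⟩ | h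
    · exact Or.inl h
    · right; left
      simp only [Set.mem_iUnion]
      exact ⟨k, Finset.mem_range.mpr hk, h⟩
    · exact Or.inr (Or.inr h)
  obtain ⟨x, hx⟩ : ∃ x : ℝ, x = ((2:ℝ)^K)^(-(5/48) : ℝ) := ⟨_, rfl⟩
  have hx0 : 0 < x := by rw [hx]; positivity
  have hxk : ∀ k, k < K → ((2:ℝ)^k)^(-(5/48) : ℝ) ≤ 2^(K - k) * x := by
    intro k hk
    have e1 : (2:ℝ)^K = 2^k * 2^(K - k) := by rw [← pow_add]; congr 1; omega
    have h1 : (1:ℝ) ≤ 2^(K-k) := one_le_pow₀ (by norm_num)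
    rw [hx, e1, Real.mul_rpow (by positivity) (by positivity)]
    have h2 : ((2:ℝ)^(K-k))^(-(1:ℝ)) ≤ ((2:ℝ)^(K-k))^(-(5/48) : ℝ) :=
      Real.rpow_le_rpow_of_exponent_le h1 (by norm_num)
    rw [Real.rpow_neg_one] at h2
    have h3 : (0:ℝ) < ((2:ℝ)^k)^(-(5/48) : ℝ) := by positivity
    calc ((2:ℝ)^k)^(-(5/48) : ℝ)
        = 2^(K-k) * (((2:ℝ)^k)^(-(5/48) : ℝ) * ((2:ℝ)^(K-k))⁻¹) := by
          field_simp
      _ ≤ _ := by
          apply mul_le_mul_of_nonneg_left _ (by positivity)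
          exact mul_le_mul_of_nonneg_left h2 h3.le
  have hterm : ∀ k ∈ range K,
      wlaw.real {U | BadU g (2^K * M) (q (k + 1)) U ∧ AmU v r (q k) U} ≤
        C * x * (1/2)^(K - k) := by
    intro k hk
    rw [Finset.mem_range] at hk
    have e1 : 2^K * M = 2^(K - (k+1)) * (2^(k+1) * M) := by
      rw [← mul_assoc, ← pow_add]; congr 2; omega
    have hN1 : 2 ≤ 2^(k+1) * M := by
      calc 2 ≤ M := hM
        _ ≤ 2^(k+1) * M := Nat.le_mul_of_pos_left _ (by positivity)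
    have h1 := prob_BadAm hg (hS.q0 (k+1)) (hS.q1 (k+1)) (hS.q0 k) (hS.q1 k) (i := K - (k+1))
      hN1 (hS.he (k+1)) v r (by rw [← e1]; exact hd)
    rw [← e1] at h1
    refine h1.trans ?_
    have h2 := quarter_le (K - (k+1))
    have e2 : K - (k+1) + 1 = K - k := by omega
    rw [e2] at h2
    have h3 := harm k hk.le
    have h4 := hxk k hk
    have h5 := arm_nonneg (hS.q0 k) (hS.q1 k) r
    have h6 : arm (q k) r ≤ C * (2^(K - k) * x) :=
      h3.trans (mul_le_mul_of_nonneg_left h4 (by linarith))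
    calc (1/4 : ℝ)^(2^(K - (k+1))) * arm (q k) r ≤ (1/4)^(K - k) * (C * (2^(K - k) * x)) :=
          mul_le_mul h2 h6 h5 (by positivity)
      _ = C * x * ((1/4)^(K-k) * 2^(K-k)) := by ring
      _ = C * x * (1/2)^(K - k) := by
          rw [← mul_pow]; norm_num
  have hgeo : ∀ m : ℕ, ∑ k ∈ range m, (1/2 : ℝ)^(m - k) ≤ 1 := by
    intro m
    induction m with
    | zero => simp
    | succ m ih =>
      rw [Finset.sum_range_succ]
      have e1 : ∑ k ∈ range m, (1/2 : ℝ)^(m + 1 - k) = 1/2 * ∑ k ∈ range m, (1/2 : ℝ)^(m - k) := by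
        rw [Finset.mul_sum]
        apply Finset.sum_congr rfl
        intro k hk
        rw [Finset.mem_range] at hk
        have : m + 1 - k = (m - k) + 1 := by omega
        rw [this, pow_succ]; ring
      rw [e1]
      have e2 : m + 1 - m = 1 := by omega
      rw [e2]
      linarith
  have hbad : wlaw.real {U | BadU g (2^K * M) (q 0) U} ≤ x := by
    have h1 := prob_Bad hg (hS.q0 0) (hS.q1 0) (N1 := M) (i := K) hM (by
      have := hS.he 0
      simpa using this)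
    refine h1.trans ((quarter_le K).trans ?_)
    have h2 : (1/4 : ℝ)^(K+1) ≤ (1/2)^K := by
      rw [pow_succ]
      have : (1/4 : ℝ)^K ≤ (1/2)^K := pow_le_pow_left₀ (by norm_num) (by norm_num) K
      have h3 : (0:ℝ) ≤ (1/4)^K := by positivity
      linarith
    refine h2.trans ?_
    have h4 : (1:ℝ) ≤ 2^K := one_le_pow₀ (by norm_num)
    have h5 : ((2:ℝ)^K)^(-(1:ℝ)) ≤ ((2:ℝ)^K)^(-(5/48) : ℝ) :=
      Real.rpow_le_rpow_of_exponent_le h4 (by norm_num)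
    rw [Real.rpow_neg_one] at h5
    rw [hx]
    refine le_trans (le_of_eq ?_) h5
    rw [one_div, inv_pow]
  have hsum : wlaw.real (⋃ k ∈ range K,
      {U | BadU g (2^K * M) (q (k + 1)) U ∧ AmU v r (q k) U}) ≤ C * x := by
    refine (measureReal_biUnion_finset_le _ _).trans ((Finset.sum_le_sum hterm).trans ?_)
    rw [← Finset.mul_sum]
    have := hgeo K
    have h2 : 0 ≤ C * x := by positivity
    nlinarith
  have h1 := measureReal_mono (μ := wlaw) hsub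
  have h2 := measureReal_union_le (μ := wlaw) {U | AmU v r (q K) U}
    ((⋃ k ∈ range K, {U | BadU g (2^K * M) (q (k + 1)) U ∧ AmU v r (q k) U}) ∪
        {U | BadU g (2^K * M) (q 0) U})
  have h3 := measureReal_union_le (μ := wlaw)
    (⋃ k ∈ range K, {U | BadU g (2^K * M) (q (k + 1)) U ∧ AmU v r (q k) U})
    {U | BadU g (2^K * M) (q 0) U}
  have h4 : wlaw.real {U | AmU v r (q K) U} ≤ C * x := by
    refine (prob_AmU (hS.q0 K) (hS.q1 K) v r).trans ?_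
    rw [hx]
    exact harm K le_rfl
  rw [← hx]
  nlinarith

/-- The upper bound away from the origin. -/
theorem inv_upper_far {M : ℕ} {C : ℝ} {q : ℕ → ℝ} (hS : Scl M C q) (hC : 1 ≤ C) {R : ℕ}
    (hMR : 16 * M ≤ R) {v : Vtx}
    (hR : ((v.1 = R ∨ v.1 = -R) ∨ (v.2 = R ∨ v.2 = -R))) :
    wlaw.real {U | InvU v U} ≤ 3 * C * (32 * M) * (R:ℝ)^(-(5/48) : ℝ) := by
  have hM := hS.hM
  -- the scale
  obtain ⟨K, hK1, hK2⟩ : ∃ K, 2^K * (16 * M) ≤ R ∧ R < 2^(K+1) * (16 * M) := by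
    have hpos : 0 < 16 * M := by omega
    refine ⟨Nat.log 2 (R / (16 * M)), ?_, ?_⟩
    · have h1 : R / (16 * M) ≠ 0 := by
        have := Nat.div_pos hMR hpos
        omega
      have h2 := Nat.pow_log_le_self 2 h1
      calc 2^(Nat.log 2 (R / (16 * M))) * (16 * M) ≤ R / (16 * M) * (16 * M) :=
            Nat.mul_le_mul_right _ h2
        _ ≤ R := Nat.div_mul_le_self _ _
    · have h3 := Nat.lt_pow_succ_log_self (b := 2) (by norm_num) (R / (16 * M))
      have h4 : R / (16 * M) < 2^(Nat.log 2 (R / (16 * M)) + 1) := h3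
      exact (Nat.div_lt_iff_lt_mul hpos).mp h4
  obtain ⟨N, hN⟩ : ∃ N, N = 2^K * M := ⟨_, rfl⟩
  have hNR : 16 * N ≤ R := by rw [hN]; linarith
  have hK0 : 2^K ≤ N := by rw [hN]; exact Nat.le_mul_of_pos_right _ (by omega)
  have hN2 : 1 ≤ N := by
    have : 1 ≤ 2^K := Nat.one_le_two_pow
    omega
  obtain ⟨r, hr⟩ : ∃ r, r = R / 2 := ⟨_, rfl⟩
  have hr1 : 2 * r ≤ R := by omega
  have hr2 : R ≤ 2 * r + 1 := by omega
  have key : ∀ g : LSym, Gs g → (∀ J, Disjoint (RV v r) (g.mp (QJ N J))) →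
      wlaw.real {U | InvU v U} ≤ 3 * C * ((2:ℝ)^K)^(-(5/48) : ℝ) := by
    intro g hg hd
    rw [hN] at hd
    exact prob_sum hS hC hg (R := R) (by omega) (by rw [← hN]; omega) (by omega) hd
  have hmain : wlaw.real {U | InvU v U} ≤ 3 * C * ((2:ℝ)^K)^(-(5/48) : ℝ) := by
    have hNR' : 16 * (N:ℤ) ≤ R := by exact_mod_cast hNR
    have hr1' : 2 * (r:ℤ) ≤ R := by exact_mod_cast hr1
    have hr2' : (R:ℤ) ≤ 2 * r + 1 := by exact_mod_cast hr2
    have hN2' : (1:ℤ) ≤ N := by exact_mod_cast hN2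
    by_cases hs : v.1 = -R ∨ v.2 = -R
    · apply key idS gs_id
      intro J
      have hX : (0:ℤ) ≤ (2^J * N : ℕ) := by positivity
      rw [idS_mp, Finset.disjoint_left]
      rintro ⟨x, y, _ | _⟩ h1 h2
      · unfold RV at h1
        unfold QJ boxE at h2
        rw [Finset.mem_union, mem_RE_false, mem_RE_false] at h2
        rw [mem_RE_false] at h1
        push_cast at h2
        omega
      · unfold RV at h1
        unfold QJ boxE at h2
        rw [Finset.mem_union, mem_RE_true, mem_RE_true] at h2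
        rw [mem_RE_true] at h1
        push_cast at h2
        omega
    · apply key ngt gs_ngt
      intro J
      have hX : (0:ℤ) ≤ (2^J * N : ℕ) := by positivity
      rw [Finset.disjoint_left]
      rintro ⟨x, y, _ | _⟩ h1 h2
      · rw [LSym.mem_mp, ngt_φf] at h2
        unfold RV at h1
        unfold QJ boxE at h2
        rw [Finset.mem_union, mem_RE_false, mem_RE_false] at h2
        rw [mem_RE_false] at h1
        push_cast at h2
        omega
      · rw [LSym.mem_mp, ngt_φt] at h2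
        unfold RV at h1
        unfold QJ boxE at h2
        rw [Finset.mem_union, mem_RE_true, mem_RE_true] at h2
        rw [mem_RE_true] at h1
        push_cast at h2
        omega
  refine hmain.trans ?_
  have hMr : (2:ℝ) ≤ M := by exact_mod_cast hM
  have h1 : (R:ℝ) ≤ 2^K * (32 * M) := by
    have : (R:ℝ) < ((2^(K+1) * (16 * M) : ℕ) : ℝ) := by exact_mod_cast hK2
    push_cast at this
    rw [pow_succ] at this
    linarith
  have hR0 : (0:ℝ) < R := by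
    have : 0 < R := by omega
    exact_mod_cast this
  have h2 : ((2:ℝ)^K * (32 * M))^(-(5/48) : ℝ) ≤ (R:ℝ)^(-(5/48) : ℝ) :=
    Real.rpow_le_rpow_of_nonpos hR0 h1 (by norm_num)
  rw [Real.mul_rpow (by positivity) (by positivity)] at h2
  have h3 : (1:ℝ) ≤ 32 * M := by linarith
  have h4 : (32 * (M:ℝ))^(-(1:ℝ)) ≤ (32 * (M:ℝ))^(-(5/48) : ℝ) :=
    Real.rpow_le_rpow_of_exponent_le h3 (by norm_num)
  rw [Real.rpow_neg_one] at h4
  have h5 : (0:ℝ) < ((2:ℝ)^K)^(-(5/48) : ℝ) := by positivity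
  have h6 : ((2:ℝ)^K)^(-(5/48) : ℝ) ≤ (32 * M) * (R:ℝ)^(-(5/48) : ℝ) := by
    have h7 : ((2:ℝ)^K)^(-(5/48) : ℝ) * (32 * (M:ℝ))⁻¹ ≤ (R:ℝ)^(-(5/48) : ℝ) :=
      (mul_le_mul_of_nonneg_left h4 h5.le).trans h2
    have h8 : (0:ℝ) < 32 * M := by linarith
    rw [← div_eq_mul_inv, div_le_iff₀ h8] at h7
    linarith
  calc 3 * C * ((2:ℝ)^K)^(-(5/48) : ℝ) ≤ 3 * C * ((32 * M) * (R:ℝ)^(-(5/48) : ℝ)) :=
        mul_le_mul_of_nonneg_left h6 (by linarith)
    _ = _ := by ring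

end Run7.h537
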