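import Pool.Agent.Run7.h537.InvD

/-!
Invasion percolation on the square lattice: the lower bound.
-/

set_option autoImplicit false

namespace Run7.h537

open H974 Finset MeasureTheory

/-! ### Existence of invasions -/

/-- The edges which touch `A`. -/
noncomputable def tch (A : Finset Vtx) : Finset Edg :=
  (A.image (fun v => ((v.1, v.2, true) : Edg)) ∪ A.image (fun v => ((v.1 - 1, v.2, true) : Edg))) ∪
   (A.image (fun v => ((v.1, v.2, false) : Edg)) ∪ A.image (fun v => ((v.1, v.2 - 1, false) : Edg)))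

theorem Bd_tch {A : Finset Vtx} {e : Edg} (h : Bd (↑A) e) : e ∈ tch A := by
  unfold tch
  rw [Finset.mem_union, Finset.mem_union, Finset.mem_union, Finset.mem_image, Finset.mem_image,
    Finset.mem_image, Finset.mem_image]
  obtain ⟨x, y, _ | _⟩ := e
  · right
    rcases h with ⟨h, -⟩ | ⟨h, -⟩
    · exact Or.inl ⟨_, h, rfl⟩
    · refine Or.inr ⟨_, h, ?_⟩
      simp
  · left
    rcases h with ⟨h, -⟩ | ⟨h, -⟩
    · exact Or.inl ⟨_, h, rfl⟩
    · refine Or.inr ⟨_, h, ?_⟩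
      simp

theorem exists_Bd {A : Finset Vtx} (hA : A.Nonempty) : ∃ e, Bd ↑A e := by
  obtain ⟨a, ha, hmax⟩ := A.exists_max_image (fun v => v.1) hA
  refine ⟨(a.1, a.2, true), Or.inl ⟨ha, fun h => ?_⟩⟩
  have h1 := hmax _ (Finset.mem_coe.mp h)
  simp only [tgt_true] at h1
  omega

theorem exists_step (U : Edg → ℝ) {A : Finset Vtx} (hA : A.Nonempty) :
    ∃ B : Finset Vtx, ∃ e x y, Bd (↑A) e ∧ (∀ e', Bd (↑A) e' → U e ≤ U e') ∧
      ((src e = x ∧ tgt e = y) ∨ (src e = y ∧ tgt e = x)) ∧ x ∈ A ∧ y ∉ A ∧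
      B = insert y A := by
  classical
  obtain ⟨e0, he0⟩ := exists_Bd hA
  obtain ⟨e, he, hmin⟩ := ((tch A).filter (fun e => Bd (↑A) e)).exists_min_image U
    ⟨e0, Finset.mem_filter.mpr ⟨Bd_tch he0, he0⟩⟩
  have hb := (Finset.mem_filter.mp he).2
  have hm : ∀ e', Bd (↑A) e' → U e ≤ U e' := fun e' he' =>
    hmin e' (Finset.mem_filter.mpr ⟨Bd_tch he', he'⟩)
  rcases hb with ⟨h1, h2⟩ | ⟨h1, h2⟩
  · exact ⟨_, e, src e, tgt e, Or.inl ⟨h1, h2⟩, hm, Or.inl ⟨rfl, rfl⟩, Finset.mem_coe.mp h1,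
      fun h => h2 (Finset.mem_coe.mpr h), rfl⟩
  · exact ⟨_, e, tgt e, src e, Or.inr ⟨h1, h2⟩, hm, Or.inr ⟨rfl, rfl⟩, Finset.mem_coe.mp h1,
      fun h => h2 (Finset.mem_coe.mpr h), rfl⟩

/-- The next set. -/
noncomputable def nxt (U : Edg → ℝ) (A : {A : Finset Vtx // A.Nonempty}) :
    {A : Finset Vtx // A.Nonempty} :=
  ⟨Classical.choose (exists_step U A.2), by
    obtain ⟨e, x, y, -, -, -, -, -, h⟩ := Classical.choose_spec (exists_step U A.2)
    rw [h]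
    exact Finset.insert_nonempty _ _⟩

/-- The sequence of sets. -/
noncomputable def sqn (U : Edg → ℝ) : ℕ → {A : Finset Vtx // A.Nonempty}
  | 0 => ⟨{(0, 0)}, Finset.singleton_nonempty _⟩
  | n + 1 => nxt U (sqn U n)

theorem exists_inv (U : Edg → ℝ) : ∃ A, IsInv U A :=
  ⟨fun n => (sqn U n).1, rfl, fun n => Classical.choose_spec (exists_step U (sqn U n).2)⟩

/-! ### The invaded set is closed at level one half -/

/-- The invaded set. -/
def InvS (A : ℕ → Finset Vtx) : Set Vtx := {w | ∃ n, w ∈ A n}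

theorem not_arm_fin {L : Set Edg} {u : Vtx} {r : ℕ} (h : ¬ ArmV u r (fin (RV u r) L)) :
    {w | Reach L u w}.Finite := by
  apply Set.Finite.subset ((Finset.Icc (u.1 - r) (u.1 + r)) ×ˢ
    (Finset.Icc (u.2 - r) (u.2 + r))).finite_toSet
  intro w hw
  have hw' : Reach L u w := hw
  by_contra hcon
  apply h
  apply exitArm hw'
  by_contra hc
  push Not at hc
  apply hcon
  rw [Finset.mem_coe, Finset.mem_product, Finset.mem_Icc, Finset.mem_Icc]
  omega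

theorem closed_inv {U : Edg → ℝ} {A : ℕ → Finset Vtx} (h : IsInv U A) {p : ℝ}
    (hfin : ∀ u, ∃ r, ¬ ArmV u r (fin (RV u r) (lev U p))) : Cl (lev U p) (InvS A) := by
  have key : ∀ e, e ∈ lev U p → ∀ x y, ((src e = x ∧ tgt e = y) ∨ (src e = y ∧ tgt e = x)) →
      x ∈ InvS A → y ∈ InvS A := by
    intro e he x y hxy hx
    by_contra hy
    obtain ⟨n, hn⟩ := hx
    have hbd : ∀ m, n ≤ m → Bd (↑(A m)) e := by
      intro m hm
      have h1 : x ∈ A m := h.mono hm hn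
      have h2 : y ∉ A m := fun h' => hy ⟨m, h'⟩
      rcases hxy with ⟨k1, k2⟩ | ⟨k1, k2⟩
      · exact Or.inl ⟨by rw [k1]; exact h1, by rw [k2]; exact h2⟩
      · exact Or.inr ⟨by rw [k2]; exact h1, by rw [k1]; exact h2⟩
    have hreach : ∀ m, n ≤ m → ∀ w ∈ A m, ∃ u ∈ A n, Reach (lev U p) u w := by
      intro m hm
      induction m, hm using Nat.le_induction with
      | base => exact fun w hw => ⟨w, hw, Reach.refl _ _⟩
      | succ m hm ih =>
        intro w hw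
        obtain ⟨e', x', y', k1, k2, k3, k4, k5, k6⟩ := h.step m
        rw [k6, Finset.mem_insert] at hw
        rcases hw with rfl | hw
        · obtain ⟨u, hu, hr⟩ := ih x' k4
          refine ⟨u, hu, hr.trans (Adj.reach ⟨e', ?_, k3⟩)⟩
          exact (k2 e (hbd m hm)).trans he
        · exact ih w hw
    have hfinite : (⋃ u ∈ A n, {w | Reach (lev U p) u w}).Finite := by
      apply Set.Finite.biUnion (Finset.finite_toSet (A n))
      intro u _
      obtain ⟨r, hr⟩ := hfin u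
      exact not_arm_fin hr
    obtain ⟨m, hm⟩ : ∃ m, m = n + hfinite.toFinset.card := ⟨_, rfl⟩
    have hsub : A m ⊆ hfinite.toFinset := by
      intro w hw
      rw [Set.Finite.mem_toFinset]
      obtain ⟨u, hu, hr⟩ := hreach m (by omega) w hw
      simp only [Set.mem_iUnion]
      exact ⟨u, hu, hr⟩
    have h1 := Finset.card_le_card hsub
    rw [h.card m] at h1
    omega
  intro e he
  exact ⟨fun hs => key e he _ _ (Or.inl ⟨rfl, rfl⟩) hs, fun ht => key e he _ _ (Or.inr ⟨rfl, rfl⟩) ht⟩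

theorem IsInv.far {U : Edg → ℝ} {A : ℕ → Finset Vtx} (h : IsInv U A) (X : ℕ) :
    ∃ n, ∃ x ∈ A n, x.1 ≤ -(X:ℤ) ∨ (X:ℤ) ≤ x.1 ∨ x.2 ≤ -(X:ℤ) ∨ (X:ℤ) ≤ x.2 := by
  by_contra hcon
  push Not at hcon
  have hsub : ∀ n, A n ⊆ (Finset.Icc (-(X:ℤ)) X) ×ˢ (Finset.Icc (-(X:ℤ)) X) := by
    intro n x hx
    have h1 := hcon n x hx
    rw [Finset.mem_product, Finset.mem_Icc, Finset.mem_Icc]
    omega
  have h1 := Finset.card_le_card (hsub ((Finset.Icc (-(X:ℤ)) X) ×ˢ (Finset.Icc (-(X:ℤ)) X)).card)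
  rw [h.card] at h1
  omega

theorem caught {U : Edg → ℝ} {A : ℕ → Finset Vtx} (h : IsInv U A) {p : ℝ}
    (hfin : ∀ u, ∃ r, ¬ ArmV u r (fin (RV u r) (lev U p))) {v : Vtx} {R : ℕ} (hR0 : 0 < R)
    (hv : inR (-(R:ℤ)) R (-(R:ℤ)) R v)
    (hC : Circ R ((3 * R : ℕ) : ℤ) (fin (boxE (3 * R)) (lev U p)))
    (hA : ArmV v (4 * R) (fin (RV v (4 * R)) (lev U p))) : ∃ n, v ∈ A n := by
  set Fs : Finset Edg := fin (boxE (3 * R)) (lev U p ∪ inn (InvS A)) with hFs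
  have hcl : Cl (lev U p ∪ inn (InvS A)) (InvS A) := (closed_inv h hfin).union (Cl_inn _)
  have hclF : Cl (↑Fs : Set Edg) (InvS A) := by
    rw [hFs, fin_coe]
    exact hcl.mono Set.inter_subset_left
  have hC' : Circ R ((3 * R : ℕ) : ℤ) Fs := hC.mono (fin_mono Set.subset_union_left)
  obtain ⟨z, hz⟩ := circ_meet (R1 := (R:ℤ)) (R2 := ((3 * R : ℕ) : ℤ)) (by omega)
    (by push_cast; omega) hC'
  -- the point `v`
  obtain ⟨u, hu, hru⟩ := hA
  unfold inR at hv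
  have hru' : Reach (lev U p) v u := by
    apply hru.mono
    rw [fin_coe]
    rintro e ⟨⟨k1, -⟩, -⟩
    exact k1
  obtain ⟨w, k1, k2, k3⟩ := first_exit (a := -((3 * R : ℕ) : ℤ)) (b := ((3 * R : ℕ) : ℤ))
    (c := -((3 * R : ℕ) : ℤ)) (d := ((3 * R : ℕ) : ℤ)) (u := v)
    (by unfold inR; push_cast; omega) hru' (by push_cast at hu ⊢; omega)
  have k4 := hz v w (by unfold inR; exact hv) k2 (k3.mono (by
    rintro e ⟨he1, he2⟩
    refine ⟨?_, he2⟩
    rw [Finset.mem_coe, hFs, mem_fin]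
    exact ⟨he2, Or.inl he1⟩))
  -- the origin
  obtain ⟨n, x, hx, hxf⟩ := h.far (3 * R)
  obtain ⟨w', m1, m2, m3⟩ := first_exit (a := -((3 * R : ℕ) : ℤ)) (b := ((3 * R : ℕ) : ℤ))
    (c := -((3 * R : ℕ) : ℤ)) (d := ((3 * R : ℕ) : ℤ)) (u := (0, 0))
    (by unfold inR; simp only; push_cast; omega) (h.conn n x hx) hxf
  have m4 := hz (0, 0) w' (by unfold inR; simp only; omega) m2 (m3.mono (by
    rintro e ⟨he1, he2⟩
    refine ⟨?_, he2⟩
    rw [Finset.mem_coe, hFs, mem_fin]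
    exact ⟨he2, Or.inr ⟨⟨n, by exact_mod_cast he1.1⟩, ⟨n, by exact_mod_cast he1.2⟩⟩⟩))
  have hfinal : Reach (↑Fs : Set Edg) (0, 0) v :=
    (m4.mono Set.inter_subset_left).trans (k4.mono Set.inter_subset_left).symm
  exact hclF.reach ⟨0, h.zero_mem 0⟩ hfinal

/-! ### Probability -/

theorem arm_le_ArmV {q : ℝ} (h0 : 0 ≤ q) (h1 : q ≤ 1) (v : Vtx) (r : ℕ) {S : Finset Edg}
    (hS : RV v r ⊆ S) : arm q r ≤ Pr (fun _ => q) S (ArmV v r) := by
  have ok := okq h0 h1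
  have e1 : Pr (fun _ => q) S (ArmV v r) = Pr (fun _ => q) (RV v r) (ArmV v r) :=
    Pr_local hS (fun F _ => ArmV_local (Finset.Subset.refl _) F)
  have e2 : RV v r = (trl v.1 v.2).mp (boxE r) := by
    unfold RV boxE
    rw [trl_RE]
    congr 1 <;> ring
  rw [e1, e2, LSym.pr]
  unfold arm
  apply Pr_mono ok
  rintro F _ ⟨w, hw, hr⟩
  have h2 := (trl v.1 v.2).reach hr
  have h3 : (trl v.1 v.2).ψ (0, 0) = v := by
    rw [trl_ψ]; simp
  rw [h3] at h2
  refine ⟨(trl v.1 v.2).ψ w, ?_, ?_⟩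
  · rw [trl_ψ]
    unfold onB at hw
    simp only
    omega
  · apply h2.mono
    rw [Set.image_inter (trl v.1 v.2).φ.injective, ← LSym.coe_mp, ← LSym.coe_mp, ← e2]

/-- Some cluster at level `p` is infinite. -/
def Bad0 (p : ℝ) (U : sqLattice.edgeSet → unitInterval) : Prop :=
  ∃ u, ∀ r, AmU u r p U

theorem prob_Bad0 {p C : ℝ} (h0 : 0 ≤ p) (h1 : p ≤ 1)
    (ha : ∀ n : ℕ, 1 ≤ n → arm p n ≤ C * (n:ℝ)^(-(5/48) : ℝ)) :
    wlaw {U | Bad0 p U} = 0 := by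
  have e1 : {U | Bad0 p U} = ⋃ u : Vtx, {U | ∀ r, AmU u r p U} := by
    ext U
    rw [Set.mem_iUnion]
    rfl
  rw [e1, measure_iUnion_null_iff]
  intro u
  have hlim : Filter.Tendsto (fun n : ℕ => C * (n:ℝ)^(-(5/48) : ℝ)) Filter.atTop (nhds 0) := by
    have h2 : Filter.Tendsto (fun n : ℕ => (n:ℝ)^(-(5/48) : ℝ)) Filter.atTop (nhds 0) :=
      (tendsto_rpow_neg_atTop (by norm_num : (0:ℝ) < 5/48)).comp tendsto_natCast_atTop_atTop
    have h3 := h2.const_mul C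
    rwa [mul_zero] at h3
  have hle : wlaw.real {U | ∀ r, AmU u r p U} ≤ 0 := by
    apply ge_of_tendsto hlim
    filter_upwards [Filter.eventually_ge_atTop 1] with n hn
    refine le_trans (measureReal_mono ?_) ((prob_AmU h0 h1 u n).trans (ha n hn))
    intro U hU
    exact hU n
  have hz : wlaw.real {U | ∀ r, AmU u r p U} = 0 := le_antisymm hle measureReal_nonneg
  rwa [measureReal_eq_zero_iff] at hz

/-- `v` is invaded by all invasions. -/
def AllU (v : Vtx) (U : sqLattice.edgeSet → unitInterval) : Prop :=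
  ∀ A, IsInv (wt U) A → ∃ n, v ∈ A n

theorem inv_lower {c C : ℝ}
    (ha : ∀ n : ℕ, 1 ≤ n → c * (n:ℝ)^(-(5/48) : ℝ) ≤ arm (1/2) n ∧
      arm (1/2) n ≤ C * (n:ℝ)^(-(5/48) : ℝ)) (hc : 0 < c) {v : Vtx} {R : ℕ} (hR0 : 0 < R)
    (hv : inR (-(R:ℤ)) R (-(R:ℤ)) R v) :
    kap * c / 4 * (R:ℝ)^(-(5/48) : ℝ) ≤ wlaw.real {U | AllU v U} := by
  have h0 : (0:ℝ) ≤ 1/2 := by norm_num
  have h1 : (1/2 : ℝ) ≤ 1 := by norm_num
  obtain ⟨S, hS⟩ : ∃ S, S = boxE (3 * R) ∪ RV v (4 * R) := ⟨_, rfl⟩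
  have hs1 : boxE (3 * R) ⊆ S := by rw [hS]; exact Finset.subset_union_left
  have hs2 : RV v (4 * R) ⊆ S := by rw [hS]; exact Finset.subset_union_right
  have i1 : kap ≤ Pr (fun _ => (1/2:ℝ)) S (Circ R ((3 * R : ℕ) : ℤ)) :=
    pr_CircP (okq h0 h1) (fun _ => le_rfl) hR0 hs1
  have i2 : arm (1/2) (4 * R) ≤ Pr (fun _ => (1/2:ℝ)) S (ArmV v (4 * R)) :=
    arm_le_ArmV h0 h1 v (4 * R) hs2
  have i3 := Pr_harris (okq h0 h1) (S := S) (A := Circ R ((3 * R : ℕ) : ℤ))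
    (B := ArmV v (4 * R)) (fun F G h _ hF => hF.mono h) (fun F G h _ hF => hF.mono h)
  have i4 := FU_event (okq h0 h1) S (fun F => Circ R ((3 * R : ℕ) : ℤ) F ∧ ArmV v (4 * R) F)
  have hsub : {U | (fun F => Circ R ((3 * R : ℕ) : ℤ) F ∧ ArmV v (4 * R) F)
      (FU S (fun _ => 1/2) U)} ⊆ {U | AllU v U} ∪ {U | Bad0 (1/2) U} := by
    intro U hU
    by_cases hB : Bad0 (1/2) U
    · exact Or.inr hB
    left
    obtain ⟨hU1, hU2⟩ := hU
    intro A hA
    have hfin : ∀ u, ∃ r, ¬ ArmV u r (fin (RV u r) (lev (wt U) (1/2))) := by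
      intro u
      by_contra hcon
      push Not at hcon
      exact hB ⟨u, hcon⟩
    have hloc1 : Circ R ((3 * R : ℕ) : ℤ) (fin (boxE (3 * R)) (lev (wt U) (1/2))) := by
      rw [← fin_inter hs1]
      have hR0' : (0:ℤ) < R := by exact_mod_cast hR0
      have hbx : RE (-((3 * R : ℕ) : ℤ)) ((3 * R : ℕ) : ℤ) (-((3 * R : ℕ) : ℤ))
        ((3 * R : ℕ) : ℤ) ⊆ boxE (3 * R) := Finset.Subset.refl _
      have hU1' : Circ R ((3 * R : ℕ) : ℤ) (fin S (lev (wt U) (1/2))) := hU1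
      unfold Circ at hU1' ⊢
      rw [← LRc_local, ← LRc_local (a := -((3 * R : ℕ) : ℤ)) (c := -((3 * R : ℕ) : ℤ)),
        ← TBc_local, ← TBc_local (a := -((3 * R : ℕ) : ℤ))]
      · exact hU1'
      · exact TBE_subset_RE.trans
          ((RE_subset le_rfl (by push_cast; omega) le_rfl le_rfl).trans hbx)
      · exact TBE_subset_RE.trans
          ((RE_subset (by push_cast; omega) le_rfl le_rfl le_rfl).trans hbx)
      · exact LRE_subset_RE.trans
          ((RE_subset le_rfl le_rfl le_rfl (by push_cast; omega)).trans hbx)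
      · exact LRE_subset_RE.trans
          ((RE_subset le_rfl le_rfl (by push_cast; omega) le_rfl).trans hbx)
    have hloc2 : ArmV v (4 * R) (fin (RV v (4 * R)) (lev (wt U) (1/2))) := by
      rw [← fin_inter hs2, ← ArmV_local (Finset.Subset.refl _)]
      exact hU2
    exact caught hA hfin hR0 hv hloc1 hloc2
  have i5 := measureReal_mono (μ := wlaw) hsub
  have i6 := measureReal_union_le (μ := wlaw) {U | AllU v U} {U | Bad0 (1/2) U}
  have i7 : wlaw.real {U | Bad0 (1/2) U} = 0 := by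
    rw [measureReal_def, prob_Bad0 h0 h1 (fun n hn => (ha n hn).2)]
    rfl
  have hRr : (1:ℝ) ≤ R := by exact_mod_cast hR0
  have hR0r : (0:ℝ) < R := by linarith
  have i8 : c * (((4 * R : ℕ) : ℝ))^(-(5/48) : ℝ) ≤ arm (1/2) (4 * R) := (ha (4 * R) (by omega)).1
  have i9 : (1/4 : ℝ) * (R:ℝ)^(-(5/48) : ℝ) ≤ (((4 * R : ℕ) : ℝ))^(-(5/48) : ℝ) := by
    push_cast
    rw [Real.mul_rpow (by norm_num) hR0r.le]
    apply mul_le_mul_of_nonneg_right _ (by positivity)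
    have : (4:ℝ)^(-(1:ℝ)) ≤ (4:ℝ)^(-(5/48) : ℝ) :=
      Real.rpow_le_rpow_of_exponent_le (by norm_num) (by norm_num)
    rw [Real.rpow_neg_one] at this
    linarith
  have hk := kap_pos
  have j1 : 0 ≤ arm (1/2) (4 * R) := arm_nonneg h0 h1 _
  have j2 : kap * arm (1/2) (4 * R) ≤
      Pr (fun _ => (1/2:ℝ)) S (Circ R ((3 * R : ℕ) : ℤ)) * Pr (fun _ => (1/2:ℝ)) S (ArmV v (4 * R)) :=
    mul_le_mul i1 i2 j1 (hk.le.trans i1)
  have j3 : kap * (c * (1/4 * (R:ℝ)^(-(5/48) : ℝ))) ≤ kap * arm (1/2) (4 * R) := by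
    apply mul_le_mul_of_nonneg_left _ hk.le
    exact (mul_le_mul_of_nonneg_left i9 hc.le).trans i8
  have j4 : kap * c / 4 * (R:ℝ)^(-(5/48) : ℝ) = kap * (c * (1/4 * (R:ℝ)^(-(5/48) : ℝ))) := by ring
  rw [j4]
  linarith

end Run7.h537
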