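import Pool.Agent.Run7.h537.InvE
import Pool.Agent.W424.NC.FarB
import Pool.Agent.W424.NC.Stab

/-!
Invasion percolation on the square lattice: the one-point function.
-/

set_option autoImplicit false

namespace Run7.h537

open H974 Finset MeasureTheory Pool.Agent.W424.NC

theorem exists_scl : ∃ (M : ℕ) (C : ℝ) (q : ℕ → ℝ), 1 ≤ C ∧ Scl M C q := by
  obtain ⟨E, hE, hfar⟩ := farS
  obtain ⟨κ, b, hκ, hb, hst⟩ := armS
  obtain ⟨c, C, hc, hC, hcr⟩ := Pool.Agent.W424.NC.arm_crit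
  obtain ⟨b', hb'⟩ : ∃ b', b' = min b (1/2) := ⟨_, rfl⟩
  have hb0 : 0 < b' := by rw [hb']; exact lt_min hb (by norm_num)
  have hbb : b' ≤ b := by rw [hb']; exact min_le_left _ _
  have hb2 : b' ≤ 1/2 := by rw [hb']; exact min_le_right _ _
  obtain ⟨M0, hM0⟩ := exists_nat_ge (E * b'^(-(4/3) : ℝ))
  obtain ⟨M, hM⟩ : ∃ M, M = M0 + 2 := ⟨_, rfl⟩
  have hM2 : 2 ≤ M := by omega
  have hMr : (0:ℝ) < M := by
    have : 0 < M := by omega
    exact_mod_cast this
  have hME : E * b'^(-(4/3) : ℝ) ≤ M := by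
    rw [hM]; push_cast; linarith
  have hE0 : 0 < E := by linarith
  have hkey : (E / M)^(3/4 : ℝ) ≤ b' := by
    have h1 : E / M ≤ b'^(4/3 : ℝ) := by
      rw [div_le_iff₀ hMr]
      have h2 : b'^(4/3 : ℝ) * (E * b'^(-(4/3) : ℝ)) = E := by
        have : b'^(4/3 : ℝ) * b'^(-(4/3) : ℝ) = 1 := by
          rw [← Real.rpow_add hb0]; norm_num
        calc b'^(4/3 : ℝ) * (E * b'^(-(4/3) : ℝ)) = E * (b'^(4/3 : ℝ) * b'^(-(4/3) : ℝ)) := by ring
          _ = E := by rw [this, mul_one]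
      calc E = b'^(4/3 : ℝ) * (E * b'^(-(4/3) : ℝ)) := h2.symm
        _ ≤ b'^(4/3 : ℝ) * M := mul_le_mul_of_nonneg_left hME (by positivity)
    calc (E / M)^(3/4 : ℝ) ≤ (b'^(4/3 : ℝ))^(3/4 : ℝ) :=
          Real.rpow_le_rpow (by positivity) h1 (by norm_num)
      _ = b' := by
          rw [← Real.rpow_mul hb0.le]; norm_num
  have hk1 : ∀ k : ℕ, (1:ℝ) ≤ 2^k := fun k => one_le_pow₀ (by norm_num)
  have hsplit : ∀ k : ℕ, (E / (2^k * M))^(3/4 : ℝ) =
      (E / M)^(3/4 : ℝ) * ((2:ℝ)^k)^(-(3/4) : ℝ) := by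
    intro k
    have h1 : (0:ℝ) < 2^k := by positivity
    have h2 : E / (2^k * M) = (E / M) * ((2:ℝ)^k)⁻¹ := by
      field_simp
    rw [h2, Real.mul_rpow (by positivity) (by positivity), Real.inv_rpow h1.le,
      ← Real.rpow_neg h1.le]
  have hle1 : ∀ k : ℕ, ((2:ℝ)^k)^(-(3/4) : ℝ) ≤ 1 := fun k =>
    Real.rpow_le_one_of_one_le_of_nonpos (hk1 k) (by norm_num)
  have hqle : ∀ k : ℕ, (E / (2^k * M))^(3/4 : ℝ) ≤ 1/2 := by
    intro k
    rw [hsplit]
    have h3 : (0:ℝ) ≤ (E / M)^(3/4 : ℝ) := by positivity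
    have h4 : (0:ℝ) ≤ ((2:ℝ)^k)^(-(3/4) : ℝ) := by positivity
    calc _ ≤ b' * 1 := mul_le_mul hkey (hle1 k) h4 hb0.le
      _ ≤ 1/2 := by linarith
  have hpos : ∀ k : ℕ, 0 < (E / (2^k * M))^(3/4 : ℝ) := fun k => by positivity
  refine ⟨M, max 1 (3 * C), fun k => 1/2 + (E / (2^k * M))^(3/4 : ℝ), le_max_left _ _, ?_⟩
  refine ⟨hM2, fun k => ?_, fun k => ?_, fun k => ?_, fun k => ?_⟩
  · show (0:ℝ) ≤ 1/2 + (E / (2^k * M))^(3/4 : ℝ)
    have := hpos k
    linarith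
  · show 1/2 + (E / (2^k * M))^(3/4 : ℝ) ≤ 1
    have := hqle k
    linarith
  · show eps (1/2 + (E / (2^k * M))^(3/4 : ℝ)) (2^k * M) ≤ 1/100
    apply hfar
    · have := hpos k
      linarith
    · have := hqle k
      linarith
    · have hx : (0:ℝ) < E / (2^k * M) := by positivity
      have e1 : (1/2 + (E / (2^k * (M:ℝ)))^(3/4 : ℝ) - 1/2) = (E / (2^k * M))^(3/4 : ℝ) := by ring
      rw [e1, ← Real.rpow_mul hx.le]
      have e2 : (3/4 : ℝ) * (-(4/3)) = -1 := by norm_num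
      rw [e2, Real.rpow_neg_one]
      push_cast
      rw [inv_div]
      apply le_of_eq
      field_simp
  · show arm (1/2 + (E / (2^k * M))^(3/4 : ℝ)) (2^k) ≤ max 1 (3 * C) * ((2:ℝ)^k)^(-(5/48) : ℝ)
    have h1 : 1 ≤ 2^k := Nat.one_le_two_pow
    have h2 := (hst (2^k) h1 (1/2 + (E / (2^k * M))^(3/4 : ℝ)) (by
      have e1 : (1/2 + (E / (2^k * (M:ℝ)))^(3/4 : ℝ) - 1/2) = (E / (2^k * M))^(3/4 : ℝ) := by ring
      rw [e1, abs_of_pos (hpos k), hsplit]
      push_cast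
      apply mul_le_mul_of_nonneg_right (hkey.trans hbb) (by positivity))).2.1
    have h3 := (hcr (2^k) h1).2
    push_cast at h3
    have h4 : (0:ℝ) < ((2:ℝ)^k)^(-(5/48) : ℝ) := by positivity
    have h5 : 3 * C ≤ max 1 (3 * C) := le_max_right _ _
    calc arm (1/2 + (E / (2^k * M))^(3/4 : ℝ)) (2^k) ≤ 3 * arm (1/2) (2^k) := h2
      _ ≤ 3 * (C * ((2:ℝ)^k)^(-(5/48) : ℝ)) := by linarith
      _ = (3 * C) * ((2:ℝ)^k)^(-(5/48) : ℝ) := by ring
      _ ≤ _ := mul_le_mul_of_nonneg_right h5 h4.le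

/-- The one-point function of invasion percolation. -/
theorem one_point : ∃ c C : ℝ, 0 < c ∧ 0 < C ∧ ∀ v : Vtx, v ≠ 0 →
    c * ((max |v.1| |v.2| : ℤ) : ℝ)^(-(5/48) : ℝ) ≤ wlaw.real {U | AllU v U} ∧
    wlaw.real {U | InvU v U} ≤ C * ((max |v.1| |v.2| : ℤ) : ℝ)^(-(5/48) : ℝ) := by
  obtain ⟨M, C, q, hC1, hS⟩ := exists_scl
  obtain ⟨c, C', hc, hC', hcr⟩ := Pool.Agent.W424.NC.arm_crit
  have hk := kap_pos
  have hM2 := hS.hM
  have hMr : (2:ℝ) ≤ M := by exact_mod_cast hM2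
  refine ⟨kap * c / 4, max (16 * M) (3 * C * (32 * M)), by positivity,
    lt_of_lt_of_le (by linarith) (le_max_left _ _), fun v hv => ?_⟩
  obtain ⟨R, hR⟩ : ∃ R : ℕ, (R:ℤ) = max |v.1| |v.2| :=
    ⟨(max |v.1| |v.2|).toNat, by
      rw [Int.toNat_of_nonneg]
      exact (abs_nonneg v.1).trans (le_max_left _ _)⟩
  have hv1 : |v.1| ≤ R := by rw [hR]; exact le_max_left _ _
  have hv2 : |v.2| ≤ R := by rw [hR]; exact le_max_right _ _
  have hR0 : 0 < R := by
    rcases Nat.eq_zero_or_pos R with h | h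
    · exfalso
      apply hv
      rw [h] at hv1 hv2
      have k1 : v.1 = 0 := abs_eq_zero.mp (le_antisymm (by simpa using hv1) (abs_nonneg _))
      have k2 : v.2 = 0 := abs_eq_zero.mp (le_antisymm (by simpa using hv2) (abs_nonneg _))
      exact Prod.ext k1 k2
    · exact h
  have hcast : ((max |v.1| |v.2| : ℤ) : ℝ) = (R:ℝ) := by
    rw [← hR]; push_cast; rfl
  rw [hcast]
  have hRr : (0:ℝ) < R := by exact_mod_cast hR0
  have hp : (0:ℝ) < (R:ℝ)^(-(5/48) : ℝ) := by positivity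
  constructor
  · apply inv_lower hcr hc hR0
    unfold inR
    rw [abs_le] at hv1 hv2
    exact ⟨hv1, hv2⟩
  · rcases Nat.lt_or_ge R (16 * M) with hlt | hge
    · have h1 : wlaw.real {U | InvU v U} ≤ 1 := measureReal_le_one
      refine h1.trans ?_
      have h2 : (R:ℝ) ≤ 16 * M := by exact_mod_cast hlt.le
      have h3 : (16 * (M:ℝ))^(-(5/48) : ℝ) ≤ (R:ℝ)^(-(5/48) : ℝ) :=
        Real.rpow_le_rpow_of_nonpos hRr h2 (by norm_num)
      have h4 : (16 * (M:ℝ))^(-(1:ℝ)) ≤ (16 * (M:ℝ))^(-(5/48) : ℝ) :=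
        Real.rpow_le_rpow_of_exponent_le (by linarith) (by norm_num)
      rw [Real.rpow_neg_one] at h4
      have h5 : (16 * (M:ℝ)) * (16 * (M:ℝ))⁻¹ = 1 := mul_inv_cancel₀ (by positivity)
      calc (1:ℝ) = (16 * (M:ℝ)) * (16 * (M:ℝ))⁻¹ := h5.symm
        _ ≤ (16 * (M:ℝ)) * (R:ℝ)^(-(5/48) : ℝ) :=
            mul_le_mul_of_nonneg_left (h4.trans h3) (by positivity)
        _ ≤ _ := mul_le_mul_of_nonneg_right (le_max_left _ _) hp.le
    · have h1 : wlaw.real {U | InvU v U} ≤ 3 * C * (32 * M) * (R:ℝ)^(-(5/48) : ℝ) := by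
        apply inv_upper_far hS hC1 hge
        have h2 : (R:ℤ) = |v.1| ∨ (R:ℤ) = |v.2| := by
          rw [hR]
          rcases le_total |v.1| |v.2| with h | h
          · right; exact max_eq_right h
          · left; exact max_eq_left h
        rcases h2 with h | h
        · left
          rcases abs_choice v.1 with k | k <;> rw [k] at h
          · left; exact h.symm
          · right; omega
        · right
          rcases abs_choice v.2 with k | k <;> rw [k] at h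
          · left; exact h.symm
          · right; omega
      exact h1.trans (mul_le_mul_of_nonneg_right (le_max_right _ _) hp.le)

end Run7.h537
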